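import Pool.Agent.R904.CM.Defs
import Pool.Agent.TH133.Tens

/-!
# Surfaces dominated by products with an elliptic curve with complex multiplication: definitions
-/

open CategoryTheory AlgebraicGeometry

universe u v w

namespace Pool.Agent.Helper867_CM

open Pool.Agent.H914 Pool.Agent.H914.VarClass Pool.Agent.H914.VarClass.Obj Pool.Agent.W492.BB
  Pool.Agent.W550.Corr Pool.Agent.TH133 Pool.Agent.Y152.AS

variable {k : Type u} [Field k] {𝒱 : VarClass k} {C : TheoryData.{u, v, 0} 𝒱 ℚ}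

/-- A domination of the surface `S` by the product of `E` with a curve `D`: a correspondence
`b ∈ CH^2((E × D) × S)_ℚ` such that `b_* (ᵗb)_*` is the multiplication by a rational number `N ≠ 0`
on `F^2 CH_0(S)_ℚ` (for example the graph of a dominant rational map of degree `N`). -/
structure Domination (C : TheoryData.{u, v, 0} 𝒱 ℚ) (E S : 𝒱.Obj) where
  D : 𝒱.Obj
  dim_D : D.dim = 1
  dim_S : S.dim = 2
  b : C.A ((E.prod D).prod S)
  N : ℚ
  deg : C.Deg 2 b
  ne : N ≠ 0
  dom : ∀ α : C.A S, InAlbKer C α → C.act b (C.act (tp C b) α) = N • α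

/-- The complex multiplication of the dominated surface `S`: the self-correspondence
`N⁻¹ b ∘ (u × 1)^* ∘ ᵗb` of `S` (for `S = E × D` and `b` the diagonal it is `(u × 1)^*`). -/
noncomputable def Domination.cm {E S : 𝒱.Obj} (s : Domination C E S) (u : E ⟶ E) :
    C.A (S.prod S) :=
  s.N⁻¹ • C.comp (tp C s.b) (C.comp (C.cograph (prodMap u (𝟙 s.D))) s.b)

/-- The domination is linear: `ᵗb_* b_*` commutes with `(u × 1)^*` on `F^2 CH_0(E × D)_ℚ`. Examples:
`S = E × D` with the diagonal, and `S = (E × D) / G` with the graph of the quotient map, where `G`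
is a finite group of automorphisms of `E` and of `D` (here `ᵗb_* b_*` is the sum of the elements
of `G`, and these commute with `u × 1` on `F^2`). -/
def Domination.IsLinear {E S : 𝒱.Obj} (s : Domination C E S) (u : E ⟶ E) : Prop :=
  ∀ α : C.A (E.prod s.D), InAlbKer C α →
    C.act (tp C s.b) (C.act s.b (C.up (prodMap u (𝟙 s.D)) α)) =
      C.up (prodMap u (𝟙 s.D)) (C.act (tp C s.b) (C.act s.b α))

/-- The correspondence `1 × κ + u × κ'` between `E × D` and `E × D'`, where `κ` and `κ'` are divisor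
classes on `D × D'`. -/
noncomputable def prodCorr (C : TheoryData.{u, v, 0} 𝒱 ℚ) {E D D' : 𝒱.Obj} (u : E ⟶ E)
    (κ κ' : C.A (D.prod D')) : C.A ((E.prod D).prod (E.prod D')) :=
  tens C (C.cograph (𝟙 E)) κ + tens C (C.cograph u) κ'

/-- The linear part `X⁰ = (X - d⁻¹ U₁ ∘ X ∘ U₀) / 2` of a correspondence `X` from `S₀` to `S₁`, where
`U₀` and `U₁` are the complex multiplications of `S₀` and `S₁`, `u ^ 2 = -d`. It is the mean of `X`
and `U₁⁻¹ ∘ X ∘ U₀` (up to a sign). -/
noncomputable def linPart {E S₀ S₁ : 𝒱.Obj} (s₀ : Domination C E S₀) (s₁ : Domination C E S₁)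
    (u : E ⟶ E) (d : ℕ) (X : C.A (S₀.prod S₁)) : C.A (S₀.prod S₁) :=
  (1 / 2 : ℚ) • (X - (d : ℚ)⁻¹ • C.comp (s₀.cm u) (C.comp X (s₁.cm u)))

/-- The classes `X` and `Y` act in the same way on `F^2 CH_0(S)_ℚ`. -/
def SameAction {S T : 𝒱.Obj} (X Y : C.A (S.prod T)) : Prop :=
  ∀ α : C.A S, InAlbKer C α → C.act X α = C.act Y α

/-- `X` commutes with the complex multiplications on `F^2`: `X U₀ = U₁ X`. -/
def Commutes {E S₀ S₁ : 𝒱.Obj} (s₀ : Domination C E S₀) (s₁ : Domination C E S₁) (u : E ⟶ E)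
    (X : C.A (S₀.prod S₁)) : Prop :=
  SameAction (C.comp (s₀.cm u) X) (C.comp X (s₁.cm u))

/-- `X` anticommutes with the complex multiplications on `F^2`: `X U₀ = -U₁ X`. -/
def Anticommutes {E S₀ S₁ : 𝒱.Obj} (s₀ : Domination C E S₀) (s₁ : Domination C E S₁) (u : E ⟶ E)
    (X : C.A (S₀.prod S₁)) : Prop :=
  SameAction (C.comp (s₀.cm u) X) (-C.comp X (s₁.cm u))

end Pool.Agent.Helper867_CM
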