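import Pool.Agent.Helper867_CM.Product

/-!
# Linear dominations
-/

open CategoryTheory AlgebraicGeometry

universe u v w

namespace Pool.Agent.Helper867_CM

open Pool.Agent.H914 Pool.Agent.H914.VarClass Pool.Agent.H914.VarClass.Obj Pool.Agent.W492.BB
  Pool.Agent.W550.Corr Pool.Agent.TH133 Pool.Agent.Y152.AS Pool.Agent.TH829.Kim
  Pool.Agent.R904.CM
open Pool.Agent.R904.Voi (vl pull_vl vl_univ vl_mem vl_add vl_sub vl_smul vl_pull vl_fst vl_snd
  vl_tp vl_comp pull_act ext_vl)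

set_option linter.unusedSectionVars false

variable {k : Type u} [Field k] {𝒱 : VarClass k} {C : TheoryData.{u, v, 0} 𝒱 ℚ}
  [hC : IsChowProj C] {K : Type w} [Field K] {H : WeilTheoryData.{u, v, w} C K}
  [hH : IsWeilProj H] {E : 𝒱.Obj} [GroupLaw E] {θ : C.A E}
  {W X Y Z R D D' D'' B S T V S₀ S₁ S₂ : 𝒱.Obj} {u : E ⟶ E} {d : ℕ}

/-! ### The push-forward under the complex multiplication -/

lemma pull_M_anti (h : Setup θ u d) :
    C.pull (prodMap (𝟙 (E.prod D)) (prodMap u (𝟙 D))) (MM θ D) =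
      -C.pull (prodMap (prodMap u (𝟙 D)) (𝟙 (E.prod D))) (MM θ D) := by
  apply ext_vl
  intro W x y
  rw [vl_pull, vl_neg, vl_pull, vl_MM, vl_MM]
  simp only [Category.assoc, prodMap_fst, prodMap_snd, Category.comp_id]
  simp only [← Category.assoc]
  rw [h.bC_u, neg_neg, neg_mul]

lemma act_push (f : X ⟶ Y) (b : C.A (Y.prod Z)) (a : C.A X) :
    C.act b (C.push f a) = C.act (C.pull (prodMap f (𝟙 Z)) b) a := by
  have e : prodMap f (𝟙 Z) ≫ snd Y Z = snd X Z := by rw [prodMap_snd, Category.comp_id]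
  rw [C.act_apply, C.act_apply, ← e, C.push_comp, C.proj_left]
  congr 2
  exact C.base_fst f Z a

lemma tp_cograph (f : X ⟶ Y) : tp C (C.cograph f) = C.graph f := by
  rw [tp_eq_push, TheoryData.cograph, TheoryData.graph, ← C.push_comp]
  congr 1
  congr 1
  apply prod_ext <;> simp [sw]

lemma push_u (h : Setup θ u d) (hD : D.dim = 1) {α : C.A (E.prod D)}
    (hα : α ∈ albKer C (E.prod D)) :
    C.push (prodMap u (𝟙 D)) α = -C.pull (prodMap u (𝟙 D)) α := by
  have hd : (E.prod D).dim = 2 := by rw [dim_prod, h.dim_eq, hD]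
  have m1 : C.push (prodMap u (𝟙 D)) α ∈ albKer C (E.prod D) := by
    rw [← C.act_graph, ← tp_cograph]
    exact act_albKer hd hd (tp_mem C (cog_mem h hD)) hα
  rw [← h.act_M hD m1, act_push, ← neg_neg (C.pull (prodMap (prodMap u (𝟙 D)) (𝟙 (E.prod D)))
    (MM θ D)), ← pull_M_anti h, act_neg, ← pull_act2, h.act_M hD hα]

lemma act_tp_cm (s : Domination C E S) (h : Setup θ u d) {x : C.A S} (hx : x ∈ albKer C S) :
    C.act (tp C (s.cm u)) x = -C.act (s.cm u) x := by
  rw [Domination.cm, tp_smul, tp_comp C (ch_comm C), tp_comp C (ch_comm C), tp_tp, tp_cograph,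
    act_smul, act_smul, C.act_comp, C.act_comp, C.act_comp, C.act_comp, C.act_graph, C.act_cograph,
    push_u h s.dim_D (s.back h hx), act_map_neg, smul_neg]

/-! ### Linear dominations -/

section lin

variable (s : Domination C E S) (h : Setup θ u d) (hs : s.IsLinear u)
include hs

lemma Qu {y : C.A (E.prod s.D)} (hy : y ∈ albKer C (E.prod s.D)) :
    C.act s.Q (C.pull (prodMap u (𝟙 s.D)) y) = C.pull (prodMap u (𝟙 s.D)) (C.act s.Q y) := by
  rw [s.act_Q, s.act_Q]
  exact hs y (inAlbKer_iff.2 hy)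

include h

lemma back_cm {x : C.A S} (hx : x ∈ albKer C S) : C.act (tp C s.b) (C.act (s.cm u) x) =
    C.pull (prodMap u (𝟙 s.D)) (C.act (tp C s.b) x) := by
  rw [s.act_cm, act_map_smul, ← s.act_Q, Qu s hs (s.back h hx), s.act_Q, s.dom' hx, act_map_smul,
    map_smul, smul_smul, inv_mul_cancel₀ s.ne, one_smul]

lemma forth_cm {y : C.A (E.prod s.D)} (hy : y ∈ albKer C (E.prod s.D)) :
    C.act (s.cm u) (C.act s.b y) = C.act s.b (C.pull (prodMap u (𝟙 s.D)) y) := by
  rw [s.act_cm, ← s.act_Q, ← Qu s hs hy, s.act_Q, s.dom' (s.forth h (h.u_mem s.dim_D hy)),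
    smul_smul, inv_mul_cancel₀ s.ne, one_smul]

theorem hasCM : HasCM s u d := by
  intro x hx
  apply smul_right_injective _ s.ne
  have h1 := s.dom' (cm_albKer s h (cm_albKer s h hx))
  have h2 := s.dom' hx
  change s.N • _ = s.N • _
  rw [← h1, back_cm s h hs (cm_albKer s h hx), back_cm s h hs hx, h.u_sq s.dim_D (s.back h hx),
    act_map_neg, act_map_smul, h2, smul_neg, smul_comm]

end lin

/-- The linear part for linear dominations. -/
theorem linear_product_form (s₀ : Domination C E S₀) (s₁ : Domination C E S₁) (h : Setup θ u d)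
    (hs₁ : s₁.IsLinear u) {X : C.A (S₀.prod S₁)} (hX : X ∈ C.gr (S₀.prod S₁) 2) :
    ∃ κ κ' : C.A (s₀.D.prod s₁.D), κ ∈ C.gr (s₀.D.prod s₁.D) 1 ∧ κ' ∈ C.gr (s₀.D.prod s₁.D) 1 ∧
      ∀ x ∈ albKer C S₀, C.act (linPart s₀ s₁ u d X) x =
        C.act (C.comp (tp C s₀.b) (C.comp (prodCorr C u κ κ') s₁.b)) x := by
  set ζ := C.comp s₀.b (C.comp X (tp C s₁.b)) with hζ
  have mζ : ζ ∈ C.gr ((E.prod s₀.D).prod (E.prod s₁.D)) 2 :=
    comp_mem2 s₀.dim_S (s₀.dim_ED h) s₀.deg (comp_mem2 s₁.dim_S s₀.dim_S hX s₁.tp_deg)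
  have aζ : ∀ y, C.act ζ y = C.act (tp C s₁.b) (C.act X (C.act s₀.b y)) := fun y => by
    rw [hζ, C.act_comp, C.act_comp]
  obtain ⟨κ, κ', mκ, mκ', hk⟩ := product_form h s₀.dim_D s₁.dim_D mζ
  refine ⟨(s₀.N * s₁.N)⁻¹ • κ, (s₀.N * s₁.N)⁻¹ • κ', Submodule.smul_mem _ _ mκ,
    Submodule.smul_mem _ _ mκ', fun x hx => ?_⟩
  have h1 := congrArg (C.act s₁.b) (hk _ (s₀.back h hx))
  have m1 := cm_albKer s₀ h hx
  have m2 := act_albKer s₀.dim_S s₁.dim_S hX m1
  have e1 : C.act s₀.b (C.pull (prodMap u (𝟙 s₀.D)) (C.act (tp C s₀.b) x)) =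
      s₀.N • C.act (s₀.cm u) x := by
    rw [s₀.act_cm, smul_smul, mul_inv_cancel₀ s₀.ne, one_smul]
  have e2 : prodCorr C u ((s₀.N * s₁.N)⁻¹ • κ) ((s₀.N * s₁.N)⁻¹ • κ') =
      (s₀.N * s₁.N)⁻¹ • prodCorr C u κ κ' := by
    rw [prodCorr, tens_smul', tens_smul', ← smul_add]
    rfl
  have z1 : C.act ζ (C.act (tp C s₀.b) x) = s₀.N • C.act (tp C s₁.b) (C.act X x) := by
    rw [aζ, s₀.dom' hx, act_map_smul, act_map_smul]
  have z2 : C.pull (prodMap u (𝟙 s₁.D))
      (C.act ζ (C.pull (prodMap u (𝟙 s₀.D)) (C.act (tp C s₀.b) x))) =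
        s₀.N • C.act (tp C s₁.b) (C.act (s₁.cm u) (C.act X (C.act (s₀.cm u) x))) := by
    rw [aζ, e1, act_map_smul, act_map_smul, map_smul, back_cm s₁ h hs₁ m2]
  rw [z1, z2, act_map_smul, act_map_sub', act_map_smul, act_map_smul, act_map_smul,
    s₁.dom' (act_albKer s₀.dim_S s₁.dim_S hX hx), s₁.dom' (cm_albKer s₁ h m2)] at h1
  rw [C.act_comp, C.act_comp, e2, act_smul, act_map_smul, ← h1, act_linPart]
  have n0 := s₀.ne
  have n1 := s₁.ne
  have hne : s₀.N * s₁.N ≠ 0 := mul_ne_zero n0 n1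
  have e3 : (1 / 2 : ℚ) • (s₀.N • s₁.N • C.act X x - (d : ℚ)⁻¹ • s₀.N • s₁.N •
      C.act (s₁.cm u) (C.act X (C.act (s₀.cm u) x))) = (s₀.N * s₁.N) • ((1 / 2 : ℚ) •
        (C.act X x - (d : ℚ)⁻¹ • C.act (s₁.cm u) (C.act X (C.act (s₀.cm u) x)))) := by module
  rw [e3, smul_smul _ (s₀.N * s₁.N), inv_mul_cancel₀ hne, one_smul]

/-! ### The existence of linear dominations -/

/-- The domination of the product by itself. -/
noncomputable def triv (h : Setup θ u d) (hD : D.dim = 1) : Domination C E (E.prod D) where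
  D := D
  dim_D := hD
  dim_S := by rw [dim_prod, h.dim_eq, hD]
  b := dg C (E.prod D)
  N := 1
  deg := by
    have h1 := dg_mem C (E.prod D)
    have hd : (E.prod D).dim = 2 := by rw [dim_prod, h.dim_eq, hD]
    rwa [hd] at h1
  ne := one_ne_zero
  dom := fun α _ => by rw [tp_dg, act_dg, act_dg, one_smul]

lemma act_triv (h : Setup θ u d) (hD : D.dim = 1) (x : C.A (E.prod D)) :
    C.act ((triv h hD).cm u) x = C.pull (prodMap u (𝟙 D)) x := by
  rw [Domination.act_cm]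
  change (1 : ℚ)⁻¹ • C.act (dg C (E.prod D)) (C.pull (prodMap u (𝟙 D))
    (C.act (tp C (dg C (E.prod D))) x)) = _
  rw [tp_dg, act_dg, act_dg, inv_one, one_smul]

lemma triv_isLinear (h : Setup θ u d) (hD : D.dim = 1) : (triv h hD).IsLinear u := by
  have key : ∀ α : C.A (E.prod D),
      C.act (tp C (dg C (E.prod D))) (C.act (dg C (E.prod D)) (C.pull (prodMap u (𝟙 D)) α)) =
        C.pull (prodMap u (𝟙 D)) (C.act (tp C (dg C (E.prod D))) (C.act (dg C (E.prod D)) α)) := by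
    intro α
    rw [tp_dg, act_dg, act_dg, act_dg, act_dg]
  exact fun α _ => key α

theorem exists_linear (ν : NullIdeal H E) (s : Domination C E S) (h : Setup θ u d)
    (hpic : PicardOfProducts H) (hforms : ν.Comm u) : ∃ s' : Domination C E S, s'.D = s.D ∧ s'.N = s.N ∧
      s'.IsLinear u := by
  set t := triv (C := C) h s.dim_D with ht
  have ct : HasCM t u d := hasCM t h (triv_isLinear h s.dim_D)
  have cs : HasCM s u d := fun x hx => s.cm_sq ν h hpic hforms hx
  have mb : s.b ∈ C.gr ((E.prod s.D).prod S) 2 := s.deg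
  have mtb : tp C s.b ∈ C.gr (S.prod (E.prod s.D)) 2 := s.tp_deg
  have dED := s.dim_ED h
  have key : ∀ α ∈ albKer C S, C.act (tp C (linPart t s u d s.b)) α =
      C.act (linPart s t u d (tp C s.b)) α := by
    intro α hα
    have m1 := cm_albKer s h hα
    rw [act_linPart, linPart, tp_smul, tp_sub, tp_smul, tp_comp C (ch_comm C),
      tp_comp C (ch_comm C), act_smul, C.act_sub, act_smul, C.act_comp, C.act_comp,
      act_tp_cm s h hα, act_map_neg, act_map_neg, act_tp_cm t h (s.back h m1), neg_neg]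
  have hdom : ∀ α : C.A S, InAlbKer C α →
      C.act (linPart t s u d s.b) (C.act (tp C (linPart t s u d s.b)) α) = s.N • α := by
    intro α hα'
    have hα := inAlbKer_iff.1 hα'
    rw [key α hα, ← linPart_comp ν s t s h hpic hforms cs ct cs mtb mb hα, act_linPart,
      C.act_comp, C.act_comp, s.dom' hα, s.dom' (cm_albKer s h hα), act_map_smul, cs α hα,
      smul_comm ((d : ℚ)⁻¹), smul_neg ((d : ℚ)⁻¹), smul_smul ((d : ℚ)⁻¹), inv_mul_cancel₀ h.ne]
    module
  refine ⟨⟨s.D, s.dim_D, s.dim_S, linPart t s u d s.b, s.N, linPart_mem t s h mb, s.ne, hdom⟩, rfl,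
    rfl, fun α hα' => ?_⟩
  have hα := inAlbKer_iff.1 hα'
  change C.act (tp C (linPart t s u d s.b)) (C.act (linPart t s u d s.b)
    (C.pull (prodMap u (𝟙 s.D)) α)) = C.pull (prodMap u (𝟙 s.D))
      (C.act (tp C (linPart t s u d s.b)) (C.act (linPart t s u d s.b) α))
  have mb' := linPart_mem t s h mb
  have m1 := act_albKer dED s.dim_S mb' hα
  rw [← act_triv h s.dim_D α, linPart_comm t s h ct cs mb hα, key _ (cm_albKer s h m1),
    linPart_comm s t h cs ct mtb m1, act_triv h s.dim_D, key _ m1]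

end Pool.Agent.Helper867_CM
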