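import Pool.Agent.Helper867_CM.Stmt
import Pool.Agent.Helper867_CM.Linear

/-!
# The linear parts of correspondences and Bloch's conjecture
-/

set_option autoImplicit false

open CategoryTheory AlgebraicGeometry

universe u v w

namespace Pool.Agent.Helper867_CM

open Pool.Agent.H914 Pool.Agent.H914.VarClass Pool.Agent.H914.VarClass.Obj Pool.Agent.W492.BB
  Pool.Agent.W550.Corr Pool.Agent.TH133 Pool.Agent.Y152.AS Pool.Agent.TH829.Kim
  Pool.Agent.R904.CM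

set_option linter.unusedSectionVars false

variable {k : Type u} [Field k] {𝒱 : VarClass k} {C : TheoryData.{u, v, 0} 𝒱 ℚ}
  [hC : IsChowProj C] {K : Type w} [Field K] {H : WeilTheoryData.{u, v, w} C K}
  [hH : IsWeilProj H] {E : 𝒱.Obj} [GroupLaw E] {θ : C.A E}
  {W X Y Z R D D' D'' B S T V S₀ S₁ S₂ : 𝒱.Obj} {u : E ⟶ E} {d : ℕ}
  {F : ∀ S : 𝒱.Obj, H.A S → Prop}

/-! ### Null correspondences -/

lemma ann_smul (q : ℚ) {Z : C.A (S.prod T)} (h : St.Ann F Z) : St.Ann F (q • Z) := by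
  intro ω hω
  have h1 := h ω hω
  rw [St.back] at h1 ⊢
  have e1 : tp C (q • Z) = C.pull (snd T S) (q • (1 : C.A S)) * tp C Z := by
    rw [tp_smul, map_smul, map_one, smul_mul_assoc, one_mul]
  rw [TheoryData.act_apply] at h1
  rw [e1, map_mul, H.cl_pull, TheoryData.act_apply, mul_assoc, H.proj_left, h1, mul_zero]

lemma ann_comp_left (Γ : C.A (S.prod T)) {Z : C.A (T.prod V)} (h : St.Ann F Z) :
    St.Ann F (C.comp Γ Z) := by
  intro ω hω
  have h1 : H.act (H.cl (tp C Z)) ω = 0 := h ω hω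
  rw [St.back, tp_comp C (ch_comm C), actH_comp, h1]
  exact H.act_map_zero _

lemma ann_comp_right (hF : St.IsForms F u) {Z : C.A (S.prod T)} {Γ : C.A (T.prod V)}
    (h : St.Ann F Z) (hV : V.dim = 2) (hΓ : Γ ∈ C.gr (T.prod V) 2) :
    St.Ann F (C.comp Z Γ) := by
  intro ω hω
  rw [St.back, tp_comp C (ch_comm C), actH_comp]
  refine h _ (hF.back_mem T V Γ ω ?_ hω)
  rw [hV]
  exact_mod_cast hΓ

/-- The correspondences which annihilate the forms. -/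
def annNull (hF : St.IsForms F u) (hE : E.dim = 1) : NullIdeal H E where
  null := fun {_ _} Z => St.Ann F Z
  smul := fun q _ h => ann_smul q h
  comp_left := fun h => ann_comp_left _ h
  comp_right := fun h hV hΓ => ann_comp_right hF h hV hΓ
  reduce := by
    intro D D' Z hD hD' hZ h
    have e : (E.prod D).dim = 2 := by rw [dim_prod, hE, hD]
    have e' : (E.prod D').dim = 2 := by rw [dim_prod, hE, hD']
    obtain ⟨Z', h1, h2, h3⟩ := hF.lefschetz _ _ Z e e' hZ h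
    exact ⟨Z', h1, h2, fun α hα => (h3 α (inAlbKer_iff.2 hα)).symm⟩

lemma annNull_comm (hF : St.IsForms F u) (hE : E.dim = 1) : (annNull hF hE).Comm u := by
  obtain ⟨c, hc⟩ := hF.scalar
  intro D D' X hD hD' hX
  change St.Ann F _
  intro ω hω
  have e' : (E.prod D').dim = 2 := by rw [dim_prod, hE, hD']
  have h1 : F (E.prod D) (H.act (H.cl (tp C X)) ω) := by
    refine hF.back_mem _ _ X ω ?_ hω
    rw [e']
    exact_mod_cast hX
  have h2 := hc D _ hD h1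
  have h3 := hc D' ω hD' hω
  have e2 : H.act (H.cl (tp C X)) (c • ω) = c • H.act (H.cl (tp C X)) ω :=
    map_smul (H.actL (H.cl (tp C X))) c ω
  have e3 : H.act (H.cl (tp C (C.cograph (prodMap u (𝟙 D'))))) ω = c • ω := h3
  have e4 : H.act (H.cl (tp C (C.cograph (prodMap u (𝟙 D))))) (H.act (H.cl (tp C X)) ω) =
      c • H.act (H.cl (tp C X)) ω := h2
  rw [St.back, tp_sub, tp_comp C (ch_comm C), tp_comp C (ch_comm C), map_sub,
    H.act_sub, actH_comp, actH_comp, e3, e4, e2, sub_self]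

/-! ### Dominations -/

/-- The domination. -/
def toDom {b : C.A ((E.prod D).prod S)} {N : ℚ} (hb : St.IsDom b N) : Domination C E S where
  D := D
  dim_D := hb.dim_D
  dim_S := hb.dim_S
  b := b
  N := N
  deg := hb.deg
  ne := hb.ne
  dom := hb.dom

lemma toDom_isLinear {b : C.A ((E.prod D).prod S)} {N : ℚ} {U : C.A (S.prod S)}
    (hb : St.IsCM u b N U) : (toDom hb.toIsDom).IsLinear u := by
  have key : ∀ α : C.A (E.prod D), InAlbKer C α →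
      C.act (tp C b) (C.act b (C.pull (prodMap u (𝟙 D)) α)) =
        C.pull (prodMap u (𝟙 D)) (C.act (tp C b) (C.act b α)) := by
    intro α hα
    have h1 := hb.comm α hα
    rw [C.act_comp, C.act_comp, C.act_comp, C.act_comp, St.ux, C.act_cograph,
      C.act_cograph] at h1
    exact h1
  exact fun α hα => key α hα

lemma cm_eq {b : C.A ((E.prod D).prod S)} {N : ℚ} {U : C.A (S.prod S)}
    (hb : St.IsCM u b N U) : U = (toDom hb.toIsDom).cm u := hb.eq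

open St

theorem main_all (H : WeilTheoryData.{u, v, w} C K) [IsWeilProj H]
    (hPic : Picard H) (E : 𝒱.Obj) [GroupLaw E] (u : E ⟶ E) (d : ℕ)
    (hE : CMCurve C E u d) (F : ∀ S : 𝒱.Obj, H.A S → Prop) (hF : IsForms F u) :
    (∀ (D S : 𝒱.Obj) (b : C.A ((E.prod D).prod S)) (N : ℚ), IsDom b N →
      ∃ (b' : C.A ((E.prod D).prod S)) (U : C.A (S.prod S)), IsCM u b' N U) ∧
    ∀ (D₀ D₁ S₀ S₁ : 𝒱.Obj) (b₀ : C.A ((E.prod D₀).prod S₀)) (b₁ : C.A ((E.prod D₁).prod S₁))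
      (N₀ N₁ : ℚ) (U₀ : C.A (S₀.prod S₀)) (U₁ : C.A (S₁.prod S₁)), IsCM u b₀ N₀ U₀ →
      IsCM u b₁ N₁ U₁ →
      Same (C.comp U₀ U₀) (-((d : ℚ) • one C S₀)) ∧
      (∀ X : C.A (S₀.prod S₁), C.Deg 2 X → LinearPart F u d b₀ b₁ U₀ U₁ X ∧
        ∀ (D₂ S₂ : 𝒱.Obj) (b₂ : C.A ((E.prod D₂).prod S₂)) (N₂ : ℚ) (U₂ : C.A (S₂.prod S₂)),
          IsCM u b₂ N₂ U₂ → ∀ Y : C.A (S₁.prod S₂), C.Deg 2 Y →
            Same (lin d U₀ U₂ (C.comp X Y)) (C.comp (lin d U₀ U₁ X) (lin d U₁ U₂ Y))) ∧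
      ∀ (V₀ : C.A (S₀.prod S₀)) (V₁ : C.A (S₁.prod S₁)) (a c : ℚ), IsScalar F a c U₀ V₀ →
        IsScalar F a c U₁ V₁ →
        ∀ X : C.A (S₀.prod S₁), C.Deg 2 X → Antilinear F a c V₀ V₁ X := by
  obtain ⟨hdim, hpos, hhom, hsq, θ, hθ, hp', hc', hu⟩ := hE
  have hc : ∀ (X : 𝒱.Obj) (x y : X ⟶ E),
      C.up (x + y) θ + C.up (x - y) θ = (2 : ℚ) • C.up x θ + (2 : ℚ) • C.up y θ :=
    fun X x y => (hc' X x y (x - y) (sub_add_cancel x y)).trans (smul_add _ _ _)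
  have hp : ∀ X : 𝒱.Obj, C.down (Obj.lift (0 : X ⟶ E) (𝟙 X)) 1 = C.up (fst E X) θ :=
    fun X => hp' X 0 (add_zero 0)
  replace hPic : PicardOfProducts H := hPic
  have h : Setup θ u d := ⟨hdim, hpos, hhom, hsq, hθ, hp, hc, hu⟩
  set ν := annNull hF hdim with hν
  have hf : ν.Comm u := annNull_comm hF hdim
  have dgc : ∀ {S : 𝒱.Obj} (α : C.A S), C.act (one C S) α = α := by
    intro S α
    rw [one, C.act_cograph, C.pull_id]
  refine ⟨fun D S b N hb => ?_, fun D₀ D₁ S₀ S₁ b₀ b₁ N₀ N₁ U₀ U₁ hb₀ hb₁ => ?_⟩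
  · obtain ⟨⟨D', h1, h2, b', N', h3, h4, h5⟩, rfl, rfl, h6⟩ :=
      exists_linear ν (toDom hb) h hPic hf
    refine ⟨b', _, ⟨⟨h1, h2, h3, h4, h5⟩, ?_, rfl⟩⟩
    intro α hα
    rw [C.act_comp, C.act_comp, C.act_comp, C.act_comp, ux, C.act_cograph, C.act_cograph]
    exact h6 α hα
  have l₀ := toDom_isLinear hb₀
  have l₁ := toDom_isLinear hb₁
  rw [cm_eq hb₀, cm_eq hb₁]
  generalize hs₀ : toDom hb₀.toIsDom = s₀ at l₀
  generalize hs₁ : toDom hb₁.toIsDom = s₁ at l₁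
  have c₀ := hasCM s₀ h l₀
  have c₁ := hasCM s₁ h l₁
  have lin_eq : ∀ X : C.A (S₀.prod S₁), lin d (s₀.cm u) (s₁.cm u) X = linPart s₀ s₁ u d X :=
    fun X => rfl
  refine ⟨fun α hα => ?_, fun X hX => ⟨⟨fun α hα => ?_, ?_, ?_, fun hXd => ⟨fun α hα => ?_,
    fun hk α hα => ?_, fun hcomm α hα => ?_⟩⟩, fun D₂ S₂ b₂ N₂ U₂ hb₂ Y hY α hα => ?_⟩,
    fun V₀ V₁ a b ⟨hV₀, h₀⟩ ⟨hV₁, h₁⟩ X hX hXd => ⟨fun α hα => ?_,
      fun hb hcomm α hα => ?_⟩⟩
  · rw [C.act_comp, c₀ α (inAlbKer_iff.1 hα), act_neg, act_smul, dgc]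
  · rw [C.act_comp, C.act_comp, lin_eq]
    exact linPart_comm s₀ s₁ h c₀ c₁ hX (inAlbKer_iff.1 hα)
  · have k1 := linear_product_form s₀ s₁ h l₁ hX
    subst hs₀
    subst hs₁
    obtain ⟨κ, κ', mκ, mκ', hk⟩ := k1
    exact ⟨κ, κ', mκ, mκ', fun α hα => hk α (inAlbKer_iff.1 hα)⟩
  · obtain ⟨n, mn, dn, hn⟩ := linPart_decomp ν s₀ s₁ h hf c₁ hX
    exact ⟨n, mn, dn, fun α hα => by rw [C.act_add, hn α (inAlbKer_iff.1 hα), lin_eq]⟩
  · exact linPart_null ν s₀ s₁ h hPic c₁ hX hXd (inAlbKer_iff.1 hα)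
  · have m1 := cm_albKer s₀ h (inAlbKer_iff.1 hα)
    rw [C.act_comp, C.act_comp, hk _ (inAlbKer_iff.2 m1), hk α hα, C.act_map_zero]
  · have mα := inAlbKer_iff.1 hα
    have h1 := linPart_null ν s₀ s₁ h hPic c₁ hX hXd mα
    have h0 := hcomm α hα
    rw [C.act_comp, C.act_comp] at h0
    rw [act_linPart, h0, c₁ _ (act_albKer s₀.dim_S s₁.dim_S hX mα), smul_neg, smul_smul,
      inv_mul_cancel₀ h.ne] at h1
    have h2 : C.act X α = (1 / 2 : ℚ) • (C.act X α - -((1 : ℚ) • C.act X α)) := by module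
    rw [h2, h1]
  · have c₂ := hasCM _ h (toDom_isLinear hb₂)
    rw [cm_eq hb₂, C.act_comp]
    exact linPart_comp ν s₀ s₁ (toDom hb₂.toIsDom) h hPic hf c₀ c₁ c₂ hX hY (inAlbKer_iff.1 hα)
  · rw [C.act_add, C.act_comp, C.act_comp, act_smul]
    exact antilinear ν s₀ s₁ h hPic hX hXd hV₀ hV₁ a b h₀ h₁ (inAlbKer_iff.1 hα)
  · refine kill_of_comm ν s₀ s₁ h hPic hX hXd hV₀ hV₁ a b h₀ h₁ hb (fun x hx => ?_)
      (inAlbKer_iff.1 hα)
    have h0 := hcomm x (inAlbKer_iff.2 hx)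
    rw [C.act_comp, C.act_comp] at h0
    exact h0

end Pool.Agent.Helper867_CM
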