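import Pool.Agent.Helper867_CM.Trace
import Pool.Agent.Helper867_CM.Defs

/-!
# Null correspondences between surfaces dominated by products with an elliptic curve with complex
multiplication
-/

open CategoryTheory AlgebraicGeometry

universe u v w

namespace Pool.Agent.Helper867_CM

open Pool.Agent.H914 Pool.Agent.H914.VarClass Pool.Agent.H914.VarClass.Obj Pool.Agent.W492.BB
  Pool.Agent.W550.Corr Pool.Agent.TH133 Pool.Agent.Y152.AS Pool.Agent.TH829.Kim
  Pool.Agent.R904.CM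
open Pool.Agent.R904.Voi (vl pull_vl vl_univ vl_mem vl_add vl_sub vl_smul vl_pull vl_fst vl_snd
  vl_tp vl_comp pull_act ext_vl)

set_option linter.unusedSectionVars false

variable {k : Type u} [Field k] {𝒱 : VarClass k} {C : TheoryData.{u, v, 0} 𝒱 ℚ}
  [hC : IsChowProj C] {K : Type w} [Field K] {H : WeilTheoryData.{u, v, w} C K}
  [hH : IsWeilProj H] {E : 𝒱.Obj} [GroupLaw E] {θ : C.A E}
  {W X Y R D D' D'' B S T V S₀ S₁ S₂ : 𝒱.Obj}

lemma act_map_sub' (Z : C.A (S.prod T)) (x y : C.A S) :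
    C.act Z (x - y) = C.act Z x - C.act Z y :=
  map_sub (C.actL Z) x y

lemma act_map_add' (Z : C.A (S.prod T)) (x y : C.A S) :
    C.act Z (x + y) = C.act Z x + C.act Z y :=
  map_add (C.actL Z) x y

/-- An ideal of null correspondences between surfaces. -/
structure NullIdeal (H : WeilTheoryData.{u, v, w} C K) (E : 𝒱.Obj) where
  null : ∀ {S T : 𝒱.Obj}, C.A (S.prod T) → Prop
  smul : ∀ {S T : 𝒱.Obj} (q : ℚ) {Z : C.A (S.prod T)}, null Z → null (q • Z)
  comp_left : ∀ {S T V : 𝒱.Obj} {Γ : C.A (S.prod T)} {Z : C.A (T.prod V)}, null Z →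
    null (C.comp Γ Z)
  comp_right : ∀ {S T V : 𝒱.Obj} {Z : C.A (S.prod T)} {Γ : C.A (T.prod V)}, null Z →
    V.dim = 2 → Γ ∈ C.gr (T.prod V) 2 → null (C.comp Z Γ)
  reduce : ∀ {D D' : 𝒱.Obj} {Z : C.A ((E.prod D).prod (E.prod D'))}, D.dim = 1 → D'.dim = 1 →
    Z ∈ C.gr ((E.prod D).prod (E.prod D')) 2 → null Z →
      ∃ Z' : C.A ((E.prod D).prod (E.prod D')), Z' ∈ C.gr ((E.prod D).prod (E.prod D')) 2 ∧
        H.cl Z' = 0 ∧ ∀ α ∈ albKer C (E.prod D), C.act Z' α = C.act Z α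

variable (ν : NullIdeal H E)

/-- The complex multiplication commutes with all correspondences between the products up to null
correspondences. -/
def NullIdeal.Comm (ν : NullIdeal H E) (u : E ⟶ E) : Prop :=
  ∀ (D D' : 𝒱.Obj) (X : C.A ((E.prod D).prod (E.prod D'))), D.dim = 1 → D'.dim = 1 →
    X ∈ C.gr ((E.prod D).prod (E.prod D')) 2 →
      ν.null (C.comp (C.cograph (prodMap u (𝟙 D))) X - C.comp X (C.cograph (prodMap u (𝟙 D'))))

/-! ### The complex multiplication -/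

variable {u : E ⟶ E} {d : ℕ}

/-- Null correspondences anticommute with the complex multiplication. -/
lemma anti_null (h : Setup θ u d) (hpic : PicardOfProducts H) (hD : D.dim = 1)
    (hD' : D'.dim = 1) {ζ : C.A ((E.prod D).prod (E.prod D'))}
    (hζ : ζ ∈ C.gr ((E.prod D).prod (E.prod D')) 2) (hd : ν.null ζ) {α : C.A (E.prod D)}
    (hα : α ∈ albKer C (E.prod D)) : C.act ζ (C.pull (prodMap u (𝟙 D)) α) =
      -C.pull (prodMap u (𝟙 D')) (C.act ζ α) := by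
  obtain ⟨ζ', h1, h2, h3⟩ := ν.reduce hD hD' hζ hd
  rw [← h3 _ hα, ← h3 _ (h.u_mem hD hα)]
  exact h.anti hpic hD hD' h1 h2 hα

/-- The composition of two null correspondences between products is zero. -/
lemma main_prod (h : Setup θ u d) (hpic : PicardOfProducts H) (hD : D.dim = 1)
    (hD' : D'.dim = 1) (hD'' : D''.dim = 1) {ζ : C.A ((E.prod D).prod (E.prod D'))}
    {ω : C.A ((E.prod D').prod (E.prod D''))}
    (hζ : ζ ∈ C.gr ((E.prod D).prod (E.prod D')) 2) (hd : ν.null ζ)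
    (hω : ω ∈ C.gr ((E.prod D').prod (E.prod D'')) 2) (hd' : ν.null ω) {α : C.A (E.prod D)}
    (hα : α ∈ albKer C (E.prod D)) : C.act ω (C.act ζ α) = 0 := by
  have e : (E.prod D).dim = 2 := by rw [dim_prod, h.dim_eq, hD]
  have e' : (E.prod D').dim = 2 := by rw [dim_prod, h.dim_eq, hD']
  have e'' : (E.prod D'').dim = 2 := by rw [dim_prod, h.dim_eq, hD'']
  have mχ : C.comp ζ ω ∈ C.gr ((E.prod D).prod (E.prod D'')) 2 := comp_mem2 e' e hζ hω
  have a1 := anti_null ν h hpic hD hD' hζ hd hα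
  have a2 := anti_null ν h hpic hD' hD'' hω hd' (act_albKer e e' hζ hα)
  have a3 := anti_null ν h hpic hD hD'' mχ (ν.comp_right hd e'' hω) hα
  rw [C.act_comp, C.act_comp, a1, act_map_neg, a2, neg_neg] at a3
  have a4 : (2 : ℚ) • C.pull (prodMap u (𝟙 D'')) (C.act ω (C.act ζ α)) = 0 := by
    rw [two_smul]
    nth_rw 1 [a3]
    exact neg_add_cancel _
  have a5 := (smul_eq_zero.1 a4).resolve_left two_ne_zero
  have a7 := h.u_sq hD'' (act_albKer e' e'' hω (act_albKer e e' hζ hα))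
  rw [a5, map_zero] at a7
  exact (smul_eq_zero.1 (neg_eq_zero.1 a7.symm)).resolve_left h.ne

section dom

variable (s : Domination C E S)

lemma Domination.dom' {α : C.A S} (hα : α ∈ albKer C S) :
    C.act s.b (C.act (tp C s.b) α) = s.N • α := s.dom α (inAlbKer_iff.2 hα)

lemma Domination.isDominatedBy : IsDominatedBy C (E.prod s.D) S :=
  ⟨s.dim_S, s.b, s.N, s.deg, s.ne, s.dom⟩

lemma Domination.dim_ED (h : Setup θ u d) : (E.prod s.D).dim = 2 := by
  rw [dim_prod, h.dim_eq, s.dim_D]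

lemma Domination.tp_deg : tp C s.b ∈ C.gr (S.prod (E.prod s.D)) 2 := tp_mem C s.deg

lemma cog_mem (h : Setup θ u d) (hD : D.dim = 1) :
    C.cograph (prodMap u (𝟙 D)) ∈ C.gr ((E.prod D).prod (E.prod D)) 2 := by
  have h1 := Y148.BB.cograph_mem (C := C) (prodMap u (𝟙 D))
  have hd : (E.prod D).dim = 2 := by rw [dim_prod, h.dim_eq, hD]
  rwa [hd] at h1

lemma Domination.cm_mem (h : Setup θ u d) : s.cm u ∈ C.gr (S.prod S) 2 :=
  Submodule.smul_mem _ _ (comp_mem2 (s.dim_ED h) s.dim_S s.tp_deg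
    (comp_mem2 (s.dim_ED h) (s.dim_ED h) (cog_mem h s.dim_D) s.deg))

lemma Domination.act_cm (x : C.A S) : C.act (s.cm u) x =
    s.N⁻¹ • C.act s.b (C.pull (prodMap u (𝟙 s.D)) (C.act (tp C s.b) x)) := by
  rw [Domination.cm, act_smul, C.act_comp, C.act_comp, C.act_cograph]

lemma Domination.back (h : Setup θ u d) {x : C.A S} (hx : x ∈ albKer C S) :
    C.act (tp C s.b) x ∈ albKer C (E.prod s.D) := act_albKer s.dim_S (s.dim_ED h) s.tp_deg hx

lemma Domination.forth (h : Setup θ u d) {x : C.A (E.prod s.D)} (hx : x ∈ albKer C (E.prod s.D)) :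
    C.act s.b x ∈ albKer C S := act_albKer (s.dim_ED h) s.dim_S s.deg hx

/-- An element is zero if its image under `ᵗb` is zero. -/
lemma Domination.eq_zero {x : C.A S} (hx : x ∈ albKer C S) (h0 : C.act (tp C s.b) x = 0) :
    x = 0 := by
  have h1 := s.dom' hx
  rw [h0, C.act_map_zero] at h1
  exact (smul_eq_zero.1 h1.symm).resolve_left s.ne

end dom

variable (s₀ : Domination C E S₀) (s₁ : Domination C E S₁) (s₂ : Domination C E S₂)

/-- Null correspondences anticommute with the complex multiplications. -/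
lemma anti_S (h : Setup θ u d) (hpic : PicardOfProducts H) {n : C.A (S₀.prod S₁)}
    (hn : n ∈ C.gr (S₀.prod S₁) 2) (hd : ν.null n) {x : C.A S₀} (hx : x ∈ albKer C S₀) :
    C.act n (C.act (s₀.cm u) x) = -C.act (s₁.cm u) (C.act n x) := by
  set ζ := C.comp s₀.b (C.comp n (tp C s₁.b)) with hζ
  have mζ : ζ ∈ C.gr ((E.prod s₀.D).prod (E.prod s₁.D)) 2 :=
    comp_mem2 s₀.dim_S (s₀.dim_ED h) s₀.deg (comp_mem2 s₁.dim_S s₀.dim_S hn s₁.tp_deg)
  have dζ : ν.null ζ := ν.comp_left (ν.comp_right hd (s₁.dim_ED h) s₁.tp_deg)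
  have aζ : ∀ y, C.act ζ y = C.act (tp C s₁.b) (C.act n (C.act s₀.b y)) := fun y => by
    rw [hζ, C.act_comp, C.act_comp]
  have a1 := anti_null ν h hpic s₀.dim_D s₁.dim_D mζ dζ (s₀.back h hx)
  rw [aζ, aζ, s₀.dom' hx, act_map_smul, act_map_smul, map_smul] at a1
  have m1 : C.act s₀.b (C.pull (prodMap u (𝟙 s₀.D)) (C.act (tp C s₀.b) x)) ∈ albKer C S₀ :=
    s₀.forth h (h.u_mem s₀.dim_D (s₀.back h hx))
  have a2 := congrArg (C.act s₁.b) a1
  rw [s₁.dom' (act_albKer s₀.dim_S s₁.dim_S hn m1), act_map_neg, act_map_smul] at a2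
  rw [s₀.act_cm, s₁.act_cm, act_map_smul]
  have n0 := s₀.ne
  have n1 := s₁.ne
  generalize C.act n (C.act s₀.b (C.pull (prodMap u (𝟙 s₀.D)) (C.act (tp C s₀.b) x))) = p at a2 ⊢
  generalize C.act s₁.b (C.pull (prodMap u (𝟙 s₁.D)) (C.act (tp C s₁.b) (C.act n x))) = q
    at a2 ⊢
  have h1 : p = -((s₀.N * s₁.N⁻¹) • q) := by
    have h2 : s₁.N⁻¹ • (s₁.N • p) = p := by rw [smul_smul, inv_mul_cancel₀ n1, one_smul]
    rw [← h2, a2, smul_neg, smul_smul, mul_comm]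
  rw [h1, smul_neg, smul_smul, ← mul_assoc, inv_mul_cancel₀ n0, one_mul]

include s₀ s₁ s₂ in
/-- The composition of two null correspondences is zero. -/
theorem main' (h : Setup θ u d) (hpic : PicardOfProducts H) {n : C.A (S₀.prod S₁)}
    {m : C.A (S₁.prod S₂)} (hn : n ∈ C.gr (S₀.prod S₁) 2) (hd : ν.null n)
    (hm : m ∈ C.gr (S₁.prod S₂) 2) (hd' : ν.null m) {x : C.A S₀} (hx : x ∈ albKer C S₀) :
    C.act m (C.act n x) = 0 := by
  set ζ := C.comp s₀.b (C.comp n (tp C s₁.b)) with hζ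
  set ω := C.comp s₁.b (C.comp m (tp C s₂.b)) with hω
  have mζ : ζ ∈ C.gr ((E.prod s₀.D).prod (E.prod s₁.D)) 2 :=
    comp_mem2 s₀.dim_S (s₀.dim_ED h) s₀.deg (comp_mem2 s₁.dim_S s₀.dim_S hn s₁.tp_deg)
  have mω : ω ∈ C.gr ((E.prod s₁.D).prod (E.prod s₂.D)) 2 :=
    comp_mem2 s₁.dim_S (s₁.dim_ED h) s₁.deg (comp_mem2 s₂.dim_S s₁.dim_S hm s₂.tp_deg)
  have z := main_prod ν h hpic s₀.dim_D s₁.dim_D s₂.dim_D mζ
    (ν.comp_left (ν.comp_right hd (s₁.dim_ED h) s₁.tp_deg)) mω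
    (ν.comp_left (ν.comp_right hd' (s₂.dim_ED h) s₂.tp_deg)) (s₀.back h hx)
  have m1 := act_albKer s₀.dim_S s₁.dim_S hn hx
  have m2 := act_albKer s₁.dim_S s₂.dim_S hm m1
  rw [hζ, hω] at z
  simp only [C.act_comp] at z
  rw [s₀.dom' hx, act_map_smul, act_map_smul, act_map_smul, s₁.dom' m1, act_map_smul,
    act_map_smul, act_map_smul, act_map_smul, smul_smul] at z
  exact s₂.eq_zero m2 ((smul_eq_zero.1 z).resolve_left (mul_ne_zero s₀.ne s₁.ne))

/-- All correspondences commute with the complex multiplications up to null ones. -/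
lemma comm_S (h : Setup θ u d) (hforms : ν.Comm u) {X : C.A (S₀.prod S₁)}
    (hX : X ∈ C.gr (S₀.prod S₁) 2) : ∃ c : C.A (S₀.prod S₁), c ∈ C.gr (S₀.prod S₁) 2 ∧
      ν.null c ∧ ∀ x ∈ albKer C S₀, C.act X (C.act (s₀.cm u) x) =
        C.act (s₁.cm u) (C.act X x) + C.act c x := by
  set ζ := C.comp s₀.b (C.comp X (tp C s₁.b)) with hζ
  have mζ : ζ ∈ C.gr ((E.prod s₀.D).prod (E.prod s₁.D)) 2 :=
    comp_mem2 s₀.dim_S (s₀.dim_ED h) s₀.deg (comp_mem2 s₁.dim_S s₀.dim_S hX s₁.tp_deg)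
  have aζ : ∀ y, C.act ζ y = C.act (tp C s₁.b) (C.act X (C.act s₀.b y)) := fun y => by
    rw [hζ, C.act_comp, C.act_comp]
  set c := C.comp (C.cograph (prodMap u (𝟙 s₀.D))) ζ - C.comp ζ (C.cograph (prodMap u (𝟙 s₁.D)))
    with hc
  have mν : c ∈ C.gr ((E.prod s₀.D).prod (E.prod s₁.D)) 2 :=
    Submodule.sub_mem _ (comp_mem2 (s₀.dim_ED h) (s₀.dim_ED h) (cog_mem h s₀.dim_D) mζ)
      (comp_mem2 (s₁.dim_ED h) (s₀.dim_ED h) mζ (cog_mem h s₁.dim_D))
  have dν : ν.null c := hforms s₀.D s₁.D ζ s₀.dim_D s₁.dim_D mζ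
  have aν : ∀ y, C.act c y = C.act ζ (C.pull (prodMap u (𝟙 s₀.D)) y) -
      C.pull (prodMap u (𝟙 s₁.D)) (C.act ζ y) := fun y => by
    rw [hc, C.act_sub, C.act_comp (C.cograph _) ζ, C.act_comp ζ (C.cograph _), C.act_cograph,
      C.act_cograph]
  refine ⟨(s₀.N * s₁.N)⁻¹ • C.comp (tp C s₀.b) (C.comp c s₁.b), ?_, ?_, fun x hx => ?_⟩
  · exact Submodule.smul_mem _ _ (comp_mem2 (s₀.dim_ED h) s₀.dim_S s₀.tp_deg
      (comp_mem2 (s₁.dim_ED h) (s₀.dim_ED h) mν s₁.deg))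
  · exact ν.smul _ (ν.comp_left (ν.comp_right dν s₁.dim_S s₁.deg))
  · have m1 : C.act s₀.b (C.pull (prodMap u (𝟙 s₀.D)) (C.act (tp C s₀.b) x)) ∈ albKer C S₀ :=
      s₀.forth h (h.u_mem s₀.dim_D (s₀.back h hx))
    have m2 := act_albKer s₀.dim_S s₁.dim_S hX m1
    rw [act_smul, C.act_comp, C.act_comp, aν, aζ, aζ, s₀.dom' hx, act_map_smul, act_map_smul,
      map_smul, act_map_sub', s₁.dom' m2, act_map_smul, s₀.act_cm, s₁.act_cm, act_map_smul]
    have n0 := s₀.ne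
    have n1 := s₁.ne
    generalize C.act X (C.act s₀.b (C.pull (prodMap u (𝟙 s₀.D)) (C.act (tp C s₀.b) x))) = p
    generalize C.act s₁.b (C.pull (prodMap u (𝟙 s₁.D)) (C.act (tp C s₁.b) (C.act X x))) = q
    rw [smul_sub, smul_smul, smul_smul]
    have e1 : (s₀.N * s₁.N)⁻¹ * s₁.N = s₀.N⁻¹ := by field_simp
    have e2 : (s₀.N * s₁.N)⁻¹ * s₀.N = s₁.N⁻¹ := by field_simp
    rw [e1, e2, add_sub_cancel]

end Pool.Agent.Helper867_CM
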