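import Pool.Agent.Helper867_CM.Split

/-!
# The linear part of a correspondence between products is of product form
-/

open CategoryTheory AlgebraicGeometry

universe u v w

namespace Pool.Agent.Helper867_CM

open Pool.Agent.H914 Pool.Agent.H914.VarClass Pool.Agent.H914.VarClass.Obj Pool.Agent.W492.BB
  Pool.Agent.W550.Corr Pool.Agent.TH133 Pool.Agent.Y152.AS Pool.Agent.TH829.Kim
  Pool.Agent.R904.CM
open Pool.Agent.R904.Voi (vl pull_vl vl_univ vl_mem vl_add vl_sub vl_smul vl_pull vl_fst vl_snd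
  vl_tp vl_comp pull_act ext_vl)

set_option linter.unusedSectionVars false

variable {k : Type u} [Field k] {𝒱 : VarClass k} {C : TheoryData.{u, v, 0} 𝒱 ℚ}
  [hC : IsChowProj C] {K : Type w} [Field K] {H : WeilTheoryData.{u, v, w} C K}
  [hH : IsWeilProj H] {E : 𝒱.Obj} [GroupLaw E] {θ : C.A E}
  {W X Y R D D' D'' B S T V S₀ S₁ S₂ : 𝒱.Obj} {u : E ⟶ E} {d : ℕ}

lemma lift_u {W : 𝒱.Obj} (y : W ⟶ E) (s : W ⟶ D') :
    Obj.lift y s ≫ prodMap u (𝟙 D') = Obj.lift (y ≫ u) s := by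
  apply prod_ext <;> simp

lemma pull_tens_one (κ : C.A (D.prod D')) :
    C.pull (prodMap (𝟙 (E.prod D)) (prodMap u (𝟙 D'))) (tens C (cE θ (𝟙 E)) κ) =
      tens C (cE θ u) κ := by
  apply ext_vl
  intro W p q
  obtain ⟨x, t, rfl⟩ := exists_lift p
  obtain ⟨y, s, rfl⟩ := exists_lift q
  rw [vl_pull, Category.comp_id, lift_u, vl_tens, vl_tens, vl_cE, vl_cE]
  simp only [lift_fst, lift_snd, Category.comp_id]

lemma pull_tens_u (h : Setup θ u d) (κ : C.A (D.prod D')) :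
    C.pull (prodMap (𝟙 (E.prod D)) (prodMap u (𝟙 D'))) (tens C (cE θ u) κ) =
      -((d : ℚ) • tens C (cE θ (𝟙 E)) κ) := by
  apply ext_vl
  intro W p q
  obtain ⟨x, t, rfl⟩ := exists_lift p
  obtain ⟨y, s, rfl⟩ := exists_lift q
  rw [vl_pull, Category.comp_id, lift_u, vl_tens, vl_neg, vl_smul, vl_tens, vl_cE, vl_cE]
  simp only [lift_fst, lift_snd, Category.comp_id]
  rw [h.comp_uu, bC_neg_right h.cube, bC_zsmul_right h.cube, ← Int.cast_smul_eq_zsmul ℚ,
    Int.cast_natCast, neg_neg, neg_mul, smul_neg, neg_neg, smul_mul_assoc]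

lemma tens_smul' (c : C.A (E.prod E)) (q : ℚ) (κ : C.A (D.prod D')) :
    tens C c (q • κ) = q • tens C c κ := by
  rw [tens, tens, map_smul, mul_smul_comm]

/-- The linear part is of product form. -/
theorem product_form (h : Setup θ u d) (hD : D.dim = 1) (hD' : D'.dim = 1)
    {X : C.A ((E.prod D).prod (E.prod D'))} (hX : X ∈ C.gr ((E.prod D).prod (E.prod D')) 2) :
    ∃ κ κ' : C.A (D.prod D'), κ ∈ C.gr (D.prod D') 1 ∧ κ' ∈ C.gr (D.prod D') 1 ∧
      ∀ α ∈ albKer C (E.prod D), (1 / 2 : ℚ) • (C.act X α - (d : ℚ)⁻¹ •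
        C.pull (prodMap u (𝟙 D')) (C.act X (C.pull (prodMap u (𝟙 D)) α))) =
          C.act (prodCorr C u κ κ') α := by
  obtain ⟨κ, κ', mκ, mκ', hk⟩ := anticomm h hD hD' hX
  have hd : (E.prod D).dim = 2 := by rw [dim_prod, h.dim_eq, hD]
  have hd' : (E.prod D').dim = 2 := by rw [dim_prod, h.dim_eq, hD']
  refine ⟨(-(1 / 2) : ℚ) • κ, (-(1 / (2 * d)) : ℚ) • κ', Submodule.smul_mem _ _ mκ,
    Submodule.smul_mem _ _ mκ', fun α hα => ?_⟩
  have h1 := congrArg (C.pull (prodMap u (𝟙 D'))) (hk α hα)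
  rw [map_add, map_sub, h.u_sq hD' (act_albKer hd hd' hX hα),
    pull_act2 _ (tens C (cE θ (𝟙 E)) κ'), pull_act2 _ (tens C (cE θ u) κ),
    pull_tens_one, pull_tens_u h, act_neg, act_smul] at h1
  rw [prodCorr, C.act_add, act_tens_graph h.point h.cube h.deg h.dim_eq hD _
    (Submodule.smul_mem _ _ mκ) hα, act_tens_graph h.point h.cube h.deg h.dim_eq hD _
    (Submodule.smul_mem _ _ mκ') hα, tens_smul', tens_smul', act_smul, act_smul]
  have e' : (d : ℚ)⁻¹ * d = 1 := inv_mul_cancel₀ h.ne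
  have e2 : (-(1 / (2 * d)) : ℚ) = -(1 / 2) * (d : ℚ)⁻¹ := by
    have := h.ne
    field_simp
  have h2 : C.pull (prodMap u (𝟙 D')) (C.act X (C.pull (prodMap u (𝟙 D)) α)) =
      C.act (tens C (cE θ u) κ') α + (d : ℚ) • C.act (tens C (cE θ (𝟙 E)) κ) α +
        (d : ℚ) • C.act X α := by
    linear_combination (norm := module) h1
  rw [h2, e2, smul_add, smul_add, smul_smul, smul_smul, e']
  module

/-- The linear part of an operator which commutes with the complex multiplication. -/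
theorem product_of_comm (h : Setup θ u d) (hD : D.dim = 1) (hD' : D'.dim = 1)
    {X : C.A ((E.prod D).prod (E.prod D'))} (hX : X ∈ C.gr ((E.prod D).prod (E.prod D')) 2)
    (hcomm : ∀ α ∈ albKer C (E.prod D), C.act X (C.pull (prodMap u (𝟙 D)) α) =
      C.pull (prodMap u (𝟙 D')) (C.act X α)) :
    ∃ κ κ' : C.A (D.prod D'), κ ∈ C.gr (D.prod D') 1 ∧ κ' ∈ C.gr (D.prod D') 1 ∧
      ∀ α ∈ albKer C (E.prod D), C.act X α = C.act (prodCorr C u κ κ') α := by
  obtain ⟨κ, κ', mκ, mκ', hk⟩ := product_form h hD hD' hX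
  refine ⟨κ, κ', mκ, mκ', fun α hα => ?_⟩
  have hd : (E.prod D).dim = 2 := by rw [dim_prod, h.dim_eq, hD]
  have hd' : (E.prod D').dim = 2 := by rw [dim_prod, h.dim_eq, hD']
  rw [← hk α hα, hcomm α hα, h.u_sq hD' (act_albKer hd hd' hX hα), smul_neg, smul_smul,
    inv_mul_cancel₀ h.ne]
  module

end Pool.Agent.Helper867_CM
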