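import Pool.Agent.Helper867_CM.Null

/-!
# The linear part of a correspondence
-/

open CategoryTheory AlgebraicGeometry

universe u v w

namespace Pool.Agent.Helper867_CM

open Pool.Agent.H914 Pool.Agent.H914.VarClass Pool.Agent.H914.VarClass.Obj Pool.Agent.W492.BB
  Pool.Agent.W550.Corr Pool.Agent.TH133 Pool.Agent.Y152.AS Pool.Agent.TH829.Kim
  Pool.Agent.R904.CM
open Pool.Agent.R904.Voi (vl pull_vl vl_univ vl_mem vl_add vl_sub vl_smul vl_pull vl_fst vl_snd
  vl_tp vl_comp pull_act ext_vl)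

set_option linter.unusedSectionVars false

variable {k : Type u} [Field k] {𝒱 : VarClass k} {C : TheoryData.{u, v, 0} 𝒱 ℚ}
  [hC : IsChowProj C] {K : Type w} [Field K] {H : WeilTheoryData.{u, v, w} C K}
  [hH : IsWeilProj H] {E : 𝒱.Obj} [GroupLaw E] {θ : C.A E}
  {W X Y R D D' D'' B S T V S₀ S₁ S₂ : 𝒱.Obj} {u : E ⟶ E} {d : ℕ} (ν : NullIdeal H E)

section dom

variable (s : Domination C E S)

/-- The composition of the domination with its transpose. -/
noncomputable def Domination.Q : C.A ((E.prod s.D).prod (E.prod s.D)) := C.comp s.b (tp C s.b)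

lemma Domination.Q_mem (h : Setup θ u d) :
    s.Q ∈ C.gr ((E.prod s.D).prod (E.prod s.D)) 2 := comp_mem2 s.dim_S (s.dim_ED h) s.deg s.tp_deg

lemma Domination.act_Q (y : C.A (E.prod s.D)) :
    C.act s.Q y = C.act (tp C s.b) (C.act s.b y) := by rw [Domination.Q, C.act_comp]

lemma Domination.QQ (h : Setup θ u d) {y : C.A (E.prod s.D)} (hy : y ∈ albKer C (E.prod s.D)) :
    C.act s.Q (C.act s.Q y) = s.N • C.act s.Q y := by
  rw [s.act_Q (C.act s.Q y), s.act_Q y, s.dom' (s.forth h hy), act_map_smul]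

lemma Domination.Q_albKer (h : Setup θ u d) {y : C.A (E.prod s.D)}
    (hy : y ∈ albKer C (E.prod s.D)) : C.act s.Q y ∈ albKer C (E.prod s.D) :=
  act_albKer (s.dim_ED h) (s.dim_ED h) (s.Q_mem h) hy

/-- The square of the complex multiplication. -/
theorem Domination.cm_sq (h : Setup θ u d) (hpic : PicardOfProducts H)
    (hforms : ν.Comm u) {x : C.A S} (hx : x ∈ albKer C S) :
    C.act (s.cm u) (C.act (s.cm u) x) = -((d : ℚ) • x) := by
  set n := C.comp (C.cograph (prodMap u (𝟙 s.D))) s.Q - C.comp s.Q (C.cograph (prodMap u (𝟙 s.D)))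
    with hn
  have mn : n ∈ C.gr ((E.prod s.D).prod (E.prod s.D)) 2 :=
    Submodule.sub_mem _ (comp_mem2 (s.dim_ED h) (s.dim_ED h) (cog_mem h s.dim_D) (s.Q_mem h))
      (comp_mem2 (s.dim_ED h) (s.dim_ED h) (s.Q_mem h) (cog_mem h s.dim_D))
  have dn : ν.null n := hforms s.D s.D s.Q s.dim_D s.dim_D (s.Q_mem h)
  have an : ∀ y, C.act n y = C.act s.Q (C.pull (prodMap u (𝟙 s.D)) y) -
      C.pull (prodMap u (𝟙 s.D)) (C.act s.Q y) := fun y => by
    rw [hn, C.act_sub, C.act_comp (C.cograph _) s.Q, C.act_comp s.Q (C.cograph _), C.act_cograph,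
      C.act_cograph]
  -- the composition `Q n Q`
  have hQnQ : ∀ y ∈ albKer C (E.prod s.D), C.act s.Q (C.act n (C.act s.Q y)) = 0 := by
    intro y hy
    have q1 := s.Q_albKer h hy
    rw [an, act_map_sub', s.QQ h (h.u_mem s.dim_D q1), s.QQ h hy, map_smul, act_map_smul, sub_self]
  have hnn : ∀ y ∈ albKer C (E.prod s.D), C.act n (C.act n y) = 0 := fun y hy =>
    main_prod ν h hpic s.dim_D s.dim_D s.dim_D mn dn mn dn hy
  set y := C.act (tp C s.b) x with hy
  have my : y ∈ albKer C (E.prod s.D) := s.back h hx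
  have Qy : C.act s.Q y = s.N • y := by rw [s.act_Q, hy, s.dom' hx, act_map_smul]
  set z := C.pull (prodMap u (𝟙 s.D)) y with hz
  have mz : z ∈ albKer C (E.prod s.D) := h.u_mem s.dim_D my
  have ny : C.act n y = C.act s.Q z - s.N • z := by rw [an, Qy, map_smul, hz]
  -- `n u y` is killed by `b`
  have mnz : C.act n z ∈ albKer C (E.prod s.D) := act_albKer (s.dim_ED h) (s.dim_ED h) mn mz
  have h1 : s.N • C.act n z = C.act n (C.act s.Q z) := by
    have h2 := hnn y my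
    rw [ny, act_map_sub', act_map_smul, sub_eq_zero] at h2
    exact h2.symm
  have h3 : C.act s.Q (C.act n z) = 0 := by
    have h4 := hQnQ z mz
    rw [← h1, act_map_smul] at h4
    exact (smul_eq_zero.1 h4).resolve_left s.ne
  have h5 : C.act s.b (C.act n z) = 0 :=
    s.eq_zero (s.forth h mnz) (by rw [← s.act_Q, h3])
  -- the computation
  have h6 : C.act n z = -C.pull (prodMap u (𝟙 s.D)) (C.act n y) :=
    anti_null ν h hpic s.dim_D s.dim_D mn dn my
  rw [ny, map_sub, map_smul, hz, h.u_sq s.dim_D my, ← hz] at h6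
  have h7 : C.pull (prodMap u (𝟙 s.D)) (C.act s.Q z) = -(s.N * (d : ℚ)) • y - C.act n z := by
    rw [h6]
    module
  rw [s.act_cm, s.act_cm, ← hy, ← hz]
  rw [act_map_smul, map_smul, act_map_smul, ← s.act_Q, h7, act_map_sub', act_map_smul, h5, hy,
    s.dom' hx, sub_zero, smul_smul, smul_smul, smul_smul]
  have n0 := s.ne
  have e : s.N⁻¹ * s.N⁻¹ * -(s.N * (d : ℚ)) * s.N = -(d : ℚ) := by field_simp
  rw [e, neg_smul]

end dom

/-- The square of the complex multiplication is `-d` on the Albanese kernel. -/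
def HasCM (s : Domination C E S) (u : E ⟶ E) (d : ℕ) : Prop :=
  ∀ x ∈ albKer C S, C.act (s.cm u) (C.act (s.cm u) x) = -((d : ℚ) • x)

variable (s₀ : Domination C E S₀) (s₁ : Domination C E S₁) (s₂ : Domination C E S₂)

/-! ### The linear part -/

lemma act_linPart (X : C.A (S₀.prod S₁)) (x : C.A S₀) :
    C.act (linPart s₀ s₁ u d X) x = (1 / 2 : ℚ) • (C.act X x -
      (d : ℚ)⁻¹ • C.act (s₁.cm u) (C.act X (C.act (s₀.cm u) x))) := by
  rw [linPart, act_smul, C.act_sub, act_smul, C.act_comp, C.act_comp]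

lemma cm_albKer (s : Domination C E S) (h : Setup θ u d) {x : C.A S} (hx : x ∈ albKer C S) :
    C.act (s.cm u) x ∈ albKer C S := act_albKer s.dim_S s.dim_S (s.cm_mem h) hx

lemma linPart_mem (h : Setup θ u d) {X : C.A (S₀.prod S₁)} (hX : X ∈ C.gr (S₀.prod S₁) 2) :
    linPart s₀ s₁ u d X ∈ C.gr (S₀.prod S₁) 2 :=
  Submodule.smul_mem _ _ (Submodule.sub_mem _ hX (Submodule.smul_mem _ _
    (comp_mem2 s₀.dim_S s₀.dim_S (s₀.cm_mem h) (comp_mem2 s₁.dim_S s₀.dim_S hX (s₁.cm_mem h)))))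

/-- The linear part commutes with the complex multiplications. -/
theorem linPart_comm (h : Setup θ u d) (h₀ : HasCM s₀ u d) (h₁ : HasCM s₁ u d)
    {X : C.A (S₀.prod S₁)} (hX : X ∈ C.gr (S₀.prod S₁) 2) {x : C.A S₀} (hx : x ∈ albKer C S₀) :
    C.act (linPart s₀ s₁ u d X) (C.act (s₀.cm u) x) =
      C.act (s₁.cm u) (C.act (linPart s₀ s₁ u d X) x) := by
  have h1 := h₀ x hx
  have h2 := h₁ _ (act_albKer s₀.dim_S s₁.dim_S hX (cm_albKer s₀ h hx))
  rw [act_linPart, act_linPart, h1, act_map_neg, act_map_smul, act_map_neg, act_map_smul,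
    act_map_smul, act_map_sub', act_map_smul, h2]
  have e : (d : ℚ)⁻¹ * d = 1 := inv_mul_cancel₀ h.ne
  rw [smul_neg, smul_smul, e, smul_neg, smul_smul, e]
  module

/-- The difference of a correspondence and of its linear part anticommutes with the complex
multiplications. -/
theorem linPart_anti (h : Setup θ u d) (h₀ : HasCM s₀ u d) (h₁ : HasCM s₁ u d)
    {X : C.A (S₀.prod S₁)} (hX : X ∈ C.gr (S₀.prod S₁) 2) {x : C.A S₀} (hx : x ∈ albKer C S₀) :
    C.act (X - linPart s₀ s₁ u d X) (C.act (s₀.cm u) x) =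
      -C.act (s₁.cm u) (C.act (X - linPart s₀ s₁ u d X) x) := by
  have h1 := h₀ x hx
  have h2 := h₁ _ (act_albKer s₀.dim_S s₁.dim_S hX (cm_albKer s₀ h hx))
  rw [C.act_sub, C.act_sub, act_linPart, act_linPart, h1, act_map_neg, act_map_smul, act_map_neg,
    act_map_smul, act_map_sub', act_map_smul, act_map_sub', act_map_smul, h2]
  have e : (d : ℚ)⁻¹ * d = 1 := inv_mul_cancel₀ h.ne
  rw [smul_neg, smul_smul, e, smul_neg, smul_smul, e]
  module

/-- Every correspondence acts like the sum of its linear part and of a null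
correspondence. -/
theorem linPart_decomp (h : Setup θ u d) (hforms : ν.Comm u) (h₁ : HasCM s₁ u d)
    {X : C.A (S₀.prod S₁)} (hX : X ∈ C.gr (S₀.prod S₁) 2) :
    ∃ n : C.A (S₀.prod S₁), n ∈ C.gr (S₀.prod S₁) 2 ∧ ν.null n ∧ ∀ x ∈ albKer C S₀,
      C.act X x = C.act (linPart s₀ s₁ u d X) x + C.act n x := by
  obtain ⟨c, mc, dc, hc⟩ := comm_S ν s₀ s₁ h hforms hX
  refine ⟨(1 / (2 * d) : ℚ) • C.comp c (s₁.cm u), ?_, ?_, fun x hx => ?_⟩
  · exact Submodule.smul_mem _ _ (comp_mem2 s₁.dim_S s₀.dim_S mc (s₁.cm_mem h))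
  · exact ν.smul _ (ν.comp_right dc s₁.dim_S (s₁.cm_mem h))
  · have h1 := h₁ _ (act_albKer s₀.dim_S s₁.dim_S hX hx)
    rw [act_linPart, act_smul, C.act_comp, hc x hx, act_map_add', h1]
    have e : (1 / (2 * d) : ℚ) = (1 / 2 : ℚ) * (d : ℚ)⁻¹ := by
      have := h.ne
      field_simp
    have e' : (d : ℚ)⁻¹ * d = 1 := inv_mul_cancel₀ h.ne
    rw [e, smul_add, smul_neg, smul_smul, e']
    module

/-- The linear part of a null correspondence acts as zero. -/
theorem linPart_null (h : Setup θ u d) (hpic : PicardOfProducts H) (h₁ : HasCM s₁ u d)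
    {X : C.A (S₀.prod S₁)} (hX : X ∈ C.gr (S₀.prod S₁) 2)
    (hd : ν.null X) {x : C.A S₀} (hx : x ∈ albKer C S₀) :
    C.act (linPart s₀ s₁ u d X) x = 0 := by
  have h1 := h₁ _ (act_albKer s₀.dim_S s₁.dim_S hX hx)
  rw [act_linPart, anti_S ν s₀ s₁ h hpic hX hd hx, act_map_neg, h1, neg_neg, smul_smul,
    inv_mul_cancel₀ h.ne, one_smul, sub_self, smul_zero]

/-- The linear part of a composition is the composition of the linear parts. -/
theorem linPart_comp (h : Setup θ u d) (hpic : PicardOfProducts H) (hforms : ν.Comm u)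
    (h₀ : HasCM s₀ u d) (h₁ : HasCM s₁ u d) (h₂ : HasCM s₂ u d)
    {X : C.A (S₀.prod S₁)} (hX : X ∈ C.gr (S₀.prod S₁) 2) {Y : C.A (S₁.prod S₂)}
    (hY : Y ∈ C.gr (S₁.prod S₂) 2) {x : C.A S₀} (hx : x ∈ albKer C S₀) :
    C.act (linPart s₀ s₂ u d (C.comp X Y)) x =
      C.act (linPart s₁ s₂ u d Y) (C.act (linPart s₀ s₁ u d X) x) := by
  obtain ⟨n, mn, dn, hn⟩ := linPart_decomp ν s₀ s₁ h hforms h₁ hX
  obtain ⟨m, mm, dm, hm⟩ := linPart_decomp ν s₁ s₂ h hforms h₂ hY
  have mX0 := linPart_mem s₀ s₁ h hX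
  have mY0 := linPart_mem s₁ s₂ h hY
  -- the action of the composition
  have key : ∀ z ∈ albKer C S₀, C.act Y (C.act X z) =
      C.act (linPart s₁ s₂ u d Y) (C.act (linPart s₀ s₁ u d X) z) +
        C.act (linPart s₁ s₂ u d Y) (C.act n z) + C.act m (C.act (linPart s₀ s₁ u d X) z) := by
    intro z hz
    have z1 := act_albKer s₀.dim_S s₁.dim_S mX0 hz
    have z2 := act_albKer s₀.dim_S s₁.dim_S mn hz
    have z3 : C.act m (C.act n z) = 0 :=
      main' ν s₀ s₁ s₂ h hpic mn dn mm dm hz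
    rw [hm _ (act_albKer s₀.dim_S s₁.dim_S hX hz), hn z hz, act_map_add', act_map_add', z3,
      add_zero]
  have hUx := cm_albKer s₀ h hx
  have x1 := act_albKer s₀.dim_S s₁.dim_S mX0 hx
  have x2 := act_albKer s₀.dim_S s₁.dim_S mn hx
  have a1 : C.act (linPart s₁ s₂ u d Y) (C.act (linPart s₀ s₁ u d X) (C.act (s₀.cm u) x)) =
      C.act (s₂.cm u) (C.act (linPart s₁ s₂ u d Y) (C.act (linPart s₀ s₁ u d X) x)) := by
    rw [linPart_comm s₀ s₁ h h₀ h₁ hX hx, linPart_comm s₁ s₂ h h₁ h₂ hY x1]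
  have a2 : C.act (linPart s₁ s₂ u d Y) (C.act n (C.act (s₀.cm u) x)) =
      -C.act (s₂.cm u) (C.act (linPart s₁ s₂ u d Y) (C.act n x)) := by
    rw [anti_S ν s₀ s₁ h hpic mn dn hx, act_map_neg, linPart_comm s₁ s₂ h h₁ h₂ hY x2]
  have a3 : C.act m (C.act (linPart s₀ s₁ u d X) (C.act (s₀.cm u) x)) =
      -C.act (s₂.cm u) (C.act m (C.act (linPart s₀ s₁ u d X) x)) := by
    rw [linPart_comm s₀ s₁ h h₀ h₁ hX hx, anti_S ν s₁ s₂ h hpic mm dm x1]
  rw [act_linPart s₀ s₂, C.act_comp, C.act_comp, key x hx, key _ hUx, a1, a2, a3]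
  have b1 := h₂ _ (act_albKer s₁.dim_S s₂.dim_S mY0 x1)
  have b2 := h₂ _ (act_albKer s₁.dim_S s₂.dim_S mY0 x2)
  have b3 := h₂ _ (act_albKer s₁.dim_S s₂.dim_S mm x1)
  rw [act_map_add', act_map_add', act_map_neg, act_map_neg, b1, b2, b3]
  have e' : (d : ℚ)⁻¹ * d = 1 := inv_mul_cancel₀ h.ne
  rw [smul_add, smul_add, neg_neg, neg_neg, smul_neg, smul_smul, smul_smul, smul_smul, e']
  module

lemma dg_mem2 {S : 𝒱.Obj} (hS : S.dim = 2) : dg C S ∈ C.gr (S.prod S) 2 := by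
  have h1 := dg_mem C S
  rwa [hS] at h1

section scalar

variable (h : Setup θ u d) (hpic : PicardOfProducts H) {X : C.A (S₀.prod S₁)}
    (hX : X ∈ C.gr (S₀.prod S₁) 2) (hd : ν.null X) {V₀ : C.A (S₀.prod S₀)}
    {V₁ : C.A (S₁.prod S₁)} (hV₀ : V₀ ∈ C.gr (S₀.prod S₀) 2) (hV₁ : V₁ ∈ C.gr (S₁.prod S₁) 2)
    (a b : ℚ) (h₀ : ν.null (V₀ - a • dg C S₀ - b • s₀.cm u))
    (h₁ : ν.null (V₁ - a • dg C S₁ - b • s₁.cm u))
include s₀ s₁ h hpic hX hd

include hV₀ h₀ in
lemma scalar_left {y : C.A S₀} (hy : y ∈ albKer C S₀) : C.act X (C.act V₀ y) =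
    a • C.act X y + b • C.act X (C.act (s₀.cm u) y) := by
  have m₀ : V₀ - a • dg C S₀ - b • s₀.cm u ∈ C.gr (S₀.prod S₀) 2 :=
    Submodule.sub_mem _ (Submodule.sub_mem _ hV₀ (Submodule.smul_mem _ _ (dg_mem2 s₀.dim_S)))
      (Submodule.smul_mem _ _ (s₀.cm_mem h))
  have z := main' ν s₀ s₀ s₁ h hpic m₀ h₀ hX hd hy
  rw [C.act_sub, C.act_sub, act_smul, act_smul, act_dg, act_map_sub', act_map_sub',
    act_map_smul, act_map_smul] at z
  rw [sub_sub, sub_eq_zero] at z
  exact z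

include hV₁ h₁ in
lemma scalar_right {y : C.A S₀} (hy : y ∈ albKer C S₀) : C.act V₁ (C.act X y) =
    a • C.act X y + b • C.act (s₁.cm u) (C.act X y) := by
  have m₁ : V₁ - a • dg C S₁ - b • s₁.cm u ∈ C.gr (S₁.prod S₁) 2 :=
    Submodule.sub_mem _ (Submodule.sub_mem _ hV₁ (Submodule.smul_mem _ _ (dg_mem2 s₁.dim_S)))
      (Submodule.smul_mem _ _ (s₁.cm_mem h))
  have z := main' ν s₀ s₁ s₁ h hpic hX hd m₁ h₁ hy
  rw [C.act_sub, C.act_sub, act_smul, act_smul, act_dg] at z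
  rw [sub_sub, sub_eq_zero] at z
  exact z

include hV₀ hV₁ h₀ h₁

/-- Null correspondences are antilinear with respect to all correspondences
which act on the holomorphic forms as scalars. -/
theorem antilinear {x : C.A S₀} (hx : x ∈ albKer C S₀) :
    C.act X (C.act V₀ x) + C.act V₁ (C.act X x) = (2 * a) • C.act X x := by
  rw [scalar_left ν s₀ s₁ h hpic hX hd hV₀ a b h₀ hx, scalar_right ν s₀ s₁ h hpic hX hd hV₁ a b h₁ hx,
    anti_S ν s₀ s₁ h hpic hX hd hx]
  module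

/-- A null correspondence which commutes with correspondences which act on the
holomorphic forms like a non-real scalar acts as zero. -/
theorem kill_of_comm (hb : b ≠ 0)
    (hcomm : ∀ x ∈ albKer C S₀, C.act X (C.act V₀ x) = C.act V₁ (C.act X x)) {x : C.A S₀}
    (hx : x ∈ albKer C S₀) : C.act X x = 0 := by
  have c1 : C.act X (C.act (s₀.cm u) x) = C.act (s₁.cm u) (C.act X x) := by
    have c2 := hcomm x hx
    rw [scalar_left ν s₀ s₁ h hpic hX hd hV₀ a b h₀ hx,
      scalar_right ν s₀ s₁ h hpic hX hd hV₁ a b h₁ hx] at c2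
    exact smul_right_injective _ hb (add_left_cancel c2)
  have c3 : C.act X (C.act (s₀.cm u) x) = 0 := by
    have c4 := anti_S ν s₀ s₁ h hpic hX hd hx
    rw [← c1] at c4
    have c5 : (2 : ℚ) • C.act X (C.act (s₀.cm u) x) = 0 := by
      rw [two_smul]
      nth_rw 1 [c4]
      exact neg_add_cancel _
    exact (smul_eq_zero.1 c5).resolve_left two_ne_zero
  -- the correspondence between the products
  set ζ := C.comp s₀.b (C.comp X (tp C s₁.b)) with hζ
  have mζ : ζ ∈ C.gr ((E.prod s₀.D).prod (E.prod s₁.D)) 2 :=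
    comp_mem2 s₀.dim_S (s₀.dim_ED h) s₀.deg (comp_mem2 s₁.dim_S s₀.dim_S hX s₁.tp_deg)
  have dζ : ν.null ζ := ν.comp_left (ν.comp_right hd (s₁.dim_ED h) s₁.tp_deg)
  have aζ : ∀ y, C.act ζ y = C.act (tp C s₁.b) (C.act X (C.act s₀.b y)) := fun y => by
    rw [hζ, C.act_comp, C.act_comp]
  have my := s₀.back h hx
  have c6 : C.act ζ (C.pull (prodMap u (𝟙 s₀.D)) (C.act (tp C s₀.b) x)) = 0 := by
    rw [aζ]
    rw [s₀.act_cm, act_map_smul] at c3
    rw [(smul_eq_zero.1 c3).resolve_left (inv_ne_zero s₀.ne), C.act_map_zero]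
  rw [anti_null ν h hpic s₀.dim_D s₁.dim_D mζ dζ my, neg_eq_zero] at c6
  have mζy := act_albKer (s₀.dim_ED h) (s₁.dim_ED h) mζ my
  have c7 := h.u_sq s₁.dim_D mζy
  rw [c6, map_zero] at c7
  have c8 := (smul_eq_zero.1 (neg_eq_zero.1 c7.symm)).resolve_left h.ne
  rw [aζ, s₀.dom' hx, act_map_smul, act_map_smul] at c8
  exact s₁.eq_zero (act_albKer s₀.dim_S s₁.dim_S hX hx)
    ((smul_eq_zero.1 c8).resolve_left s₀.ne)

end scalar

/-- A correspondence which acts on the holomorphic forms like the scalar `a + b u` is annihilated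
by the minimal polynomial of this scalar on the Albanese kernel. -/
theorem quadratic (s : Domination C E S) (h : Setup θ u d) (hpic : PicardOfProducts H)
    (hs : HasCM s u d) {V : C.A (S.prod S)} (hV : V ∈ C.gr (S.prod S) 2) (a b : ℚ)
    (hd : ν.null (V - a • dg C S - b • s.cm u)) {x : C.A S} (hx : x ∈ albKer C S) :
    C.act V (C.act V x) = (2 * a) • C.act V x - (a ^ 2 + b ^ 2 * d) • x := by
  set n := V - a • dg C S - b • s.cm u with hn
  have mn : n ∈ C.gr (S.prod S) 2 :=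
    Submodule.sub_mem _ (Submodule.sub_mem _ hV (Submodule.smul_mem _ _ (dg_mem2 s.dim_S)))
      (Submodule.smul_mem _ _ (s.cm_mem h))
  have aV : ∀ y, C.act V y = a • y + b • C.act (s.cm u) y + C.act n y := fun y => by
    rw [hn, C.act_sub, C.act_sub, act_smul, act_smul, act_dg]
    abel
  have nn : C.act n (C.act n x) = 0 :=
    main' ν s s s h hpic mn hd mn hd hx
  have nU := anti_S ν s s h hpic mn hd hx
  have UU := hs x hx
  rw [aV (C.act V x), aV x]
  simp only [act_map_add', act_map_smul]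
  rw [nn, nU, UU]
  module

end Pool.Agent.Helper867_CM
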