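import Pool.Agent.Y152.AS.Defs

/-!
# Definitions for the statements on the linear parts of correspondences
-/

open CategoryTheory AlgebraicGeometry

universe u v w

namespace Pool.Agent.Helper867_CM.St

open Pool.Agent.H914 Pool.Agent.H914.VarClass Pool.Agent.H914.VarClass.Obj Pool.Agent.W492.BB
  Pool.Agent.TH133 Pool.Agent.Y152.AS

variable {k : Type u} [Field k] {𝒱 : VarClass k} {C : TheoryData.{u, v, 0} 𝒱 ℚ}
  {E D D' S T : 𝒱.Obj}

/-- The sum of two morphisms to `E`. -/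
def plus [GroupLaw E] (x y : T ⟶ E) : T ⟶ E := x + y

/-- `E` is an elliptic curve (a curve with a commutative group law) and `u` is an endomorphism of
`E` with `u ^ 2 = -d` for a positive integer `d`, so that `E` has complex multiplication by an
order of the field `ℚ(√-d)`. The class `θ ∈ CH^1(E)_ℚ` of the origin has the following properties:
for all `T` the class of `o × T` in `CH^1(E × T)_ℚ`, `o` the zero of `Hom(T, E)`, is `θ × T`; the theorem
of the cube: the map `x ↦ x^* θ` satisfies the parallelogram law on `Hom(T, E)` (here `z = x - y`);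
`u^* θ = d θ`, because the degree of `u` is `d`. -/
structure CMCurve (C : TheoryData.{u, v, 0} 𝒱 ℚ) (E : 𝒱.Obj) [GroupLaw E] (u : E ⟶ E)
    (d : ℕ) : Prop where
  dim_eq : E.dim = 1
  pos : 0 < d
  hom : ∀ {T : 𝒱.Obj} (x y : T ⟶ E), plus x y ≫ u = plus (x ≫ u) (y ≫ u)
  sq : u ≫ u = -(d • 𝟙 E)
  origin : ∃ θ : C.A E, C.Deg 1 θ ∧
    (∀ (T : 𝒱.Obj) (o : T ⟶ E), plus o o = o →
      C.down (Obj.lift o (𝟙 T)) 1 = C.up (fst E T) θ) ∧
    (∀ (T : 𝒱.Obj) (x y z : T ⟶ E), plus z y = x →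
      C.up (plus x y) θ + C.up z θ = (2 : ℚ) • (C.up x θ + C.up y θ)) ∧
    C.up u θ = (d : ℚ) • θ

/-- The class `X` acts as zero on `F^2 CH_0(S)_ℚ`. -/
def Dies (X : C.A (S.prod T)) : Prop := ∀ α : C.A S, InAlbKer C α → C.act X α = 0

/-- The classes `X` and `Y` act in the same way on `F^2 CH_0(S)_ℚ`. -/
def Same (X Y : C.A (S.prod T)) : Prop := ∀ α : C.A S, InAlbKer C α → C.act X α = C.act Y α

/-- `X U = V X` on `F^2 CH_0(S)_ℚ`. -/
def Comm (U : C.A (S.prod S)) (V : C.A (T.prod T)) (X : C.A (S.prod T)) : Prop :=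
  Same (C.comp U X) (C.comp X V)

/-- The diagonal of `S`. -/
noncomputable def one (C : TheoryData.{u, v, 0} 𝒱 ℚ) (S : 𝒱.Obj) : C.A (S.prod S) :=
  C.cograph (𝟙 S)

/-- The correspondence `(u × 1)^*` of `E × D`. -/
noncomputable def ux (C : TheoryData.{u, v, 0} 𝒱 ℚ) (u : E ⟶ E) (D : 𝒱.Obj) :
    C.A ((E.prod D).prod (E.prod D)) := C.cograph (prodMap u (𝟙 D))

/-- The surface `S` is dominated by the product of `E` with the curve `D`: `b_* (ᵗb)_*` is the
multiplication by the rational number `N ≠ 0` on `F^2 CH_0(S)_ℚ` (for example `b` is the graph of a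
dominant rational map of degree `N`). -/
structure IsDom (b : C.A ((E.prod D).prod S)) (N : ℚ) : Prop where
  dim_D : D.dim = 1
  dim_S : S.dim = 2
  deg : C.Deg 2 b
  ne : N ≠ 0
  dom : ∀ α : C.A S, InAlbKer C α → C.act b (C.act (tp C b) α) = N • α

/-- The surface `S` is linearly dominated by the product of `E` with the curve `D`: moreover
`(ᵗb)_* b_*` commutes with `(u × 1)^*` on `F^2 CH_0(E × D)_ℚ`; and
`U = N⁻¹ b ∘ (u × 1)^* ∘ ᵗb` is the complex multiplication of `S`. Examples: `S = E × D`, and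
`S = (E × D) / G` with the graph of the quotient map, where `G` is a finite group of automorphisms
of `E` and of `D` (here `(ᵗb)_* b_*` is the sum of the elements of `G`). -/
structure IsCM (u : E ⟶ E) (b : C.A ((E.prod D).prod S)) (N : ℚ) (U : C.A (S.prod S)) : Prop
    extends IsDom b N where
  comm : Comm (ux C u D) (ux C u D) (C.comp b (tp C b))
  eq : U = N⁻¹ • C.comp (tp C b) (C.comp (ux C u D) b)

/-- The linear part `X⁰ = (X - d⁻¹ V X U) / 2` of `X`, with respect to `U` and `V` with squares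
`-d`. -/
noncomputable def lin (d : ℕ) (U : C.A (S.prod S)) (V : C.A (T.prod T)) (X : C.A (S.prod T)) :
    C.A (S.prod T) :=
  (1 / 2 : ℚ) • (X - (d : ℚ)⁻¹ • C.comp U (C.comp X V))

/-- The product `γ × κ` of a self-correspondence `γ` of `E` and of a correspondence `κ` between `D`
and `D'`. -/
noncomputable def box (γ : C.A (E.prod E)) (κ : C.A (D.prod D')) :
    C.A ((E.prod D).prod (E.prod D')) :=
  C.mul (C.up (prodMap (fst E D) (fst E D')) γ) (C.up (prodMap (snd E D) (snd E D')) κ)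

variable {K : Type w} [Field K] {H : WeilTheoryData.{u, v, w} C K}

/-- The theorem on the Picard variety of a product of two curves: a homologically trivial divisor
class on `D × D'` is the sum of divisor classes pulled back from `D` and from `D'`. -/
def Picard (H : WeilTheoryData.{u, v, w} C K) : Prop :=
  ∀ (D D' : 𝒱.Obj) (η : C.A (D.prod D')), D.dim = 1 → D'.dim = 1 → C.Deg 1 η → H.cl η = 0 →
    ∃ (a : C.A D) (b : C.A D'), C.Deg 1 a ∧ C.Deg 1 b ∧
      η = C.up (fst D D') a + C.up (snd D D') b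

/-- `[Z]^* ω = pr_{S *} ([Z] ∪ pr_T^* ω)`. -/
noncomputable def back (H : WeilTheoryData.{u, v, w} C K) (Z : C.A (S.prod T)) (ω : H.A T) :
    H.A S := H.act (H.cl (tp C Z)) ω

/-- `[Z]^* = 0` on `F T`. -/
def Ann (F : ∀ S : 𝒱.Obj, H.A S → Prop) (Z : C.A (S.prod T)) : Prop :=
  ∀ ω : H.A T, F T ω → back H Z ω = 0

/-- The properties of `F S = H^{2,0}(S)` (for complex varieties): correspondences of degree zero
respect `F`; a correspondence `Z` between surfaces with `[Z]^* = 0` on `F T` acts on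
`F^2 CH_0(S)_ℚ` like a homologically trivial one (by the theorem of Lefschetz on classes of type
`(1, 1)`, the composition of `Z` with the projector onto the transcendental part of the motive of `S`
is homologically trivial); the endomorphism `u` of `E` acts on all
`F (E × D) = H^{1,0}(E) ⊗ H^{1,0}(D)`, `D` a curve, as the same scalar. -/
structure IsForms (F : ∀ S : 𝒱.Obj, H.A S → Prop) (u : E ⟶ E) : Prop where
  back_mem : ∀ (S T : 𝒱.Obj) (Z : C.A (S.prod T)) (ω : H.A T), C.Deg T.dim Z → F T ω →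
    F S (back H Z ω)
  lefschetz : ∀ (S T : 𝒱.Obj) (Z : C.A (S.prod T)), S.dim = 2 → T.dim = 2 → C.Deg 2 Z →
    Ann F Z → ∃ Z' : C.A (S.prod T), C.Deg 2 Z' ∧ H.cl Z' = 0 ∧ Same Z Z'
  scalar : ∃ c : K, ∀ (D : 𝒱.Obj) (ω : H.A (E.prod D)), D.dim = 1 → F (E.prod D) ω →
    back H (ux C u D) ω = c • ω

/-- The linear part `X⁰` commutes with `U₀`, `U₁` and has the form `b₁ ∘ (1 × κ + u × κ') ∘ ᵗb₀`, the
difference of `X` and `X⁰` acts like a correspondence `n` with `[n]^* = 0` on `F S₁`, and if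
`[X]^* = 0` on `F S₁`, then `X⁰` acts as zero, and `X` acts as zero if and only if it commutes with
`U₀`, `U₁`. -/
def LinearPart (F : ∀ S : 𝒱.Obj, H.A S → Prop) (u : E ⟶ E) (d : ℕ)
    (b₀ : C.A ((E.prod D).prod S)) (b₁ : C.A ((E.prod D').prod T)) (U₀ : C.A (S.prod S))
    (U₁ : C.A (T.prod T)) (X : C.A (S.prod T)) : Prop :=
  Comm U₀ U₁ (lin d U₀ U₁ X) ∧
  (∃ κ κ' : C.A (D.prod D'), C.Deg 1 κ ∧ C.Deg 1 κ' ∧ Same (lin d U₀ U₁ X)
    (C.comp (tp C b₀) (C.comp (box (one C E) κ + box (C.cograph u) κ') b₁))) ∧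
  (∃ n : C.A (S.prod T), C.Deg 2 n ∧ Ann F n ∧ Same X (lin d U₀ U₁ X + n)) ∧
  (Ann F X → Dies (lin d U₀ U₁ X) ∧ (Dies X ↔ Comm U₀ U₁ X))

/-- The correspondence `V` acts on `F S` like the scalar `a + c U`. -/
def IsScalar (F : ∀ S : 𝒱.Obj, H.A S → Prop) (a c : ℚ) (U V : C.A (S.prod S)) : Prop :=
  C.Deg 2 V ∧ Ann F (V - a • one C S - c • U)

/-- If `[X]^* = 0` on `F T`, then `X V₀ + V₁ X = 2 a X`, and if in addition `c ≠ 0` and `X V₀ = V₁ X`
on `F^2 CH_0(S)_ℚ`, then `X` acts as zero. -/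
def Antilinear (F : ∀ S : 𝒱.Obj, H.A S → Prop) (a c : ℚ) (V₀ : C.A (S.prod S))
    (V₁ : C.A (T.prod T)) (X : C.A (S.prod T)) : Prop :=
  Ann F X → Same (C.comp V₀ X + C.comp X V₁) ((2 * a) • X) ∧
    (c ≠ 0 → Comm V₀ V₁ X → Dies X)

end Pool.Agent.Helper867_CM.St
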