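import Pool.Agent.R904.CM.Main

/-!
# The anticommutator of a correspondence with the complex multiplication
-/

open CategoryTheory AlgebraicGeometry

universe u v w

namespace Pool.Agent.Helper867_CM

open Pool.Agent.H914 Pool.Agent.H914.VarClass Pool.Agent.H914.VarClass.Obj Pool.Agent.W492.BB
  Pool.Agent.W550.Corr Pool.Agent.TH133 Pool.Agent.Y152.AS Pool.Agent.TH829.Kim
  Pool.Agent.R904.CM
open Pool.Agent.R904.Voi (vl pull_vl vl_univ vl_mem vl_add vl_sub vl_smul vl_pull vl_fst vl_snd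
  vl_tp vl_comp pull_act ext_vl)

set_option linter.unusedSectionVars false

variable {k : Type u} [Field k] {𝒱 : VarClass k} {C : TheoryData.{u, v, 0} 𝒱 ℚ}
  [hC : IsChowProj C] {E : 𝒱.Obj} [GroupLaw E] {θ : C.A E} {W X Y R D D' D'' B S T V : 𝒱.Obj}

/-- The class on `E × E` which acts as the endomorphism `f` on `h^1(E)`. -/
noncomputable def cE (θ : C.A E) (f : E ⟶ E) : C.A (E.prod E) := -bC θ (fst E E) (snd E E ≫ f)

lemma cE_mem (hθ : C.Deg 1 θ) (f : E ⟶ E) : cE θ f ∈ C.gr (E.prod E) 1 :=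
  Submodule.neg_mem _ (bC_deg hθ _ _)

lemma vl_cE (f : E ⟶ E) (x y : W ⟶ E) : vl C (cE θ f) x y = -bC θ x (y ≫ f) := by
  rw [vl, cE, map_neg, pull_bC, lift_fst, ← Category.assoc, lift_snd]

lemma tens_deg {c : C.A (E.prod E)} (hc : c ∈ C.gr (E.prod E) 1) {κ : C.A (D.prod D')}
    (hκ : κ ∈ C.gr (D.prod D') 1) : tens C c κ ∈ C.gr ((E.prod D).prod (E.prod D')) 2 :=
  C.mul_mem (C.pull_mem _ hc) (C.pull_mem _ hκ)

/-- The graph of `f` acts like `cE θ f`. -/
lemma act_tens_graph (hp : Point1 θ) (hc : Cube θ) (hθ : C.Deg 1 θ) (hE : E.dim = 1)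
    (hD : D.dim = 1) (f : E ⟶ E) {κ : C.A (D.prod D')} (hκ : κ ∈ C.gr (D.prod D') 1)
    {α : C.A (E.prod D)} (hα : α ∈ albKer C (E.prod D)) :
    C.act (tens C (C.cograph f) κ) α = C.act (tens C (cE θ f) κ) α := by
  have h1 : C.cograph f = eC θ (fst E E) + eC θ (snd E E ≫ f) + cE θ f := by
    have h2 := graph1 hp f
    rw [eC_sub hc] at h2
    rw [cE, ← sub_eq_add_neg, ← h2]
    rfl
  have h4 : tens C (C.cograph f) κ = tens C (eC θ (fst E E)) κ +
      tens C (eC θ (snd E E ≫ f)) κ + tens C (cE θ f) κ := by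
    rw [h1]
    simp only [tens, map_add, add_mul]
  have h5 : C.act (tens C (eC θ (fst E E)) κ) α = 0 := by
    have e1 : tens C (eC θ (fst E E)) κ =
        C.pull (prodMap (snd E D) (snd E D')) κ *
          C.pull (fst (E.prod D) (E.prod D')) (C.pull (fst E D) θ) := by
      rw [tens, pull_eC, prodMap_fst, ch_comm C, eC, C.pull_comp]
    rw [e1]
    exact kill_left hE hD _ (C.pull_mem _ hθ) hα
  have h6 : C.act (tens C (eC θ (snd E E ≫ f)) κ) α = 0 := by
    have e1 : tens C (eC θ (snd E E ≫ f)) κ =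
        C.pull (prodMap (snd E D) (snd E D')) κ *
          C.pull (snd (E.prod D) (E.prod D')) (C.pull (fst E D' ≫ f) θ) := by
      rw [tens, pull_eC, ← Category.assoc, prodMap_snd, ch_comm C, Category.assoc, eC,
        C.pull_comp]
    rw [e1]
    exact kill_right (C.pull_mem _ hκ) _ hα
  rw [h4, C.act_add, C.act_add, h5, h6, zero_add, zero_add]

/-- The anticommutator of a correspondence with the complex multiplication is a sum of products. -/
theorem anticomm {u : E ⟶ E} {d : ℕ} (h : Setup θ u d) (hD : D.dim = 1) (hD' : D'.dim = 1)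
    {ζ : C.A ((E.prod D).prod (E.prod D'))} (hζ : ζ ∈ C.gr ((E.prod D).prod (E.prod D')) 2) :
    ∃ κ κ' : C.A (D.prod D'), κ ∈ C.gr (D.prod D') 1 ∧ κ' ∈ C.gr (D.prod D') 1 ∧
      ∀ α ∈ albKer C (E.prod D), C.act ζ (C.pull (prodMap u (𝟙 D)) α) +
        C.pull (prodMap u (𝟙 D')) (C.act ζ α) =
          C.act (tens C (cE θ (𝟙 E)) κ') α - C.act (tens C (cE θ u) κ) α := by
  have hd : (E.prod D).dim = 2 := by rw [dim_prod, h.dim_eq, hD]
  have hd' : (E.prod D').dim = 2 := by rw [dim_prod, h.dim_eq, hD']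
  have hM : ∀ {D : 𝒱.Obj}, D.dim = 1 → MM θ D ∈ C.gr ((E.prod D).prod (E.prod D)) 2 := by
    intro D hD
    have h1 : dg C D ∈ C.gr (D.prod D) 1 := by
      have := dg_mem C D
      rwa [hD] at this
    exact C.mul_mem (C.pull_mem _ (Submodule.neg_mem _ (bC_deg h.deg _ _))) (C.pull_mem _ h1)
  set F := C.comp (MM θ D) (C.comp ζ (MM θ D')) with hFdef
  have hF : BiAdd F := biAdd_comp h.cube ζ
  have hF2 : F ∈ C.gr ((E.prod D).prod (E.prod D')) 2 :=
    comp_mem2 hd hd (hM hD) (comp_mem2 hd' hd hζ (hM hD'))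
  have hact : ∀ {β : C.A (E.prod D)}, β ∈ albKer C (E.prod D) → C.act F β = C.act ζ β := by
    intro β hβ
    rw [hFdef, C.act_comp, C.act_comp, h.act_M hD hβ, h.act_M hD' (act_albKer hd hd' hζ hβ)]
  set F' := C.pull (prodMap (prodMap u (𝟙 D)) (𝟙 (E.prod D'))) F with hF'
  have hv : ∀ {W : 𝒱.Obj} (x : W ⟶ E) (t : W ⟶ D) (z : W ⟶ E.prod D'),
      vl C F' (Obj.lift x t) z = vl C F (Obj.lift (x ≫ u) t) z := by
    intro W x t z
    rw [hF', vl_pull, Category.comp_id]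
    congr 1
    apply prod_ext <;> simp
  have hF'b : BiAdd F' := by
    refine ⟨fun x x' t z => ?_, fun z y y' s => ?_⟩
    · rw [hv, hv, hv, h.hom, hF.left]
    · obtain ⟨x, t, rfl⟩ := exists_lift z
      rw [hv, hv, hv, hF.right]
  have hF'2 : F' ∈ C.gr ((E.prod D).prod (E.prod D')) 2 := C.pull_mem _ hF2
  have push1 : ∀ {κ : C.A (E.prod (D.prod D'))}, κ ∈ C.gr (E.prod (D.prod D')) 2 →
      C.push (snd E (D.prod D')) κ ∈ C.gr (D.prod D') 1 := by
    intro κ hκ
    have := C.push_mem (snd E (D.prod D')) hκ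
    refine deg_cast ?_ this
    rw [dim_prod E, h.dim_eq]
    push_cast
    ring
  obtain ⟨μ, hμ, h3⟩ := sym_part h.point h.cube hF
  obtain ⟨μ', hμ', h4⟩ := sym_part h.point h.cube hF'b
  have mμ : μ ∈ C.gr (E.prod (D.prod D')) 2 := by
    rw [hμ]
    exact C.pull_mem _ hF2
  have mμ' : μ' ∈ C.gr (E.prod (D.prod D')) 2 := by
    rw [hμ']
    exact C.pull_mem _ hF'2
  refine ⟨C.push (snd E (D.prod D')) μ, C.push (snd E (D.prod D')) μ', push1 mμ, push1 mμ',
    fun α hα => ?_⟩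
  have h1 : C.act ζ (C.pull (prodMap u (𝟙 D)) α) =
      -C.act (C.pull (prodMap (prodMap u (𝟙 D)) (𝟙 (E.prod D'))) F) α := by
    have h2 := h.left hD (C.comp ζ (MM θ D')) hα
    rw [C.act_comp, h.act_M hD' (act_albKer hd hd' hζ (h.u_mem hD hα))] at h2
    exact h2
  have h2 : C.pull (prodMap u (𝟙 D')) (C.act ζ α) =
      C.act (C.pull (prodMap (𝟙 (E.prod D)) (prodMap u (𝟙 D'))) F) α := by
    rw [← hact hα, pull_act2]
  have h5 : F' - C.pull (prodMap (𝟙 (E.prod D)) (prodMap u (𝟙 D'))) F =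
      -tens C (cE θ (𝟙 E)) (C.push (snd E (D.prod D')) μ') +
        tens C (cE θ u) (C.push (snd E (D.prod D')) μ) := by
    apply ext_vl
    intro W p q
    obtain ⟨x, t, rfl⟩ := exists_lift p
    obtain ⟨y, s, rfl⟩ := exists_lift q
    have e1 : Obj.lift y s ≫ prodMap u (𝟙 D') = Obj.lift (y ≫ u) s := by
      apply prod_ext <;> simp
    have e4 : vl C (C.push (snd E (D.prod D')) μ) t s =
        C.pull (Obj.lift t s) (C.push (snd E (D.prod D')) μ) := rfl
    have e5 : vl C (C.push (snd E (D.prod D')) μ') t s =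
        C.pull (Obj.lift t s) (C.push (snd E (D.prod D')) μ') := rfl
    rw [vl_sub, vl_add, vl_neg, vl_pull (𝟙 (E.prod D)) (prodMap u (𝟙 D')) F, Category.comp_id, e1,
      vl_tens, vl_tens, vl_cE, vl_cE]
    simp only [lift_fst, lift_snd, Category.comp_id]
    rw [e4, e5, neg_mul, neg_mul, neg_neg, ← h3, ← h4, hv, hv]
    abel
  rw [h1, h2, neg_add_eq_sub, ← neg_sub, ← C.act_sub, ← hF', h5, C.act_add, act_neg]
  abel

end Pool.Agent.Helper867_CM
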